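import Mathlib

open MeasureTheory Finset
open scoped ENNReal MeasureTheory

namespace Pool.Agent.Q170.Susp

/-- The affine chart of the simplex. -/
noncomputable def chart {d : ℕ} (x : Fin d → ℝ) : EuclideanSpace ℝ (Fin (d + 1)) :=
  WithLp.toLp 2 (Fin.cons (1 - ∑ i, x i) x : Fin (d + 1) → ℝ)

/-- Its linear part. -/
noncomputable def chartLin (d : ℕ) : EuclideanSpace ℝ (Fin d) →ₗ[ℝ] EuclideanSpace ℝ (Fin (d + 1)) where
  toFun x := WithLp.toLp 2 (Fin.cons (- ∑ i, x i) (fun i => x i) : Fin (d + 1) → ℝ)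
  map_add' x y := by
    ext i
    refine Fin.cases ?_ (fun i => ?_) i
    · simp [Finset.sum_add_distrib]
      ring
    · simp
  map_smul' r x := by
    ext i
    refine Fin.cases ?_ (fun i => ?_) i
    · simp [Finset.mul_sum]
    · simp

lemma chart_eq {d : ℕ} (x : Fin d → ℝ) :
    chart x = chart (fun _ => (0 : ℝ)) + chartLin d (WithLp.toLp 2 x) := by
  ext i
  refine Fin.cases ?_ (fun i => ?_) i
  · simp [chart, chartLin]
    ring
  · simp [chart, chartLin]

lemma hausdorff_chart (d : ℕ) : ∃ c : ℝ≥0∞, c ≠ 0 ∧ c ≠ ∞ ∧ ∀ S : Set (Fin d → ℝ),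
    μH[(d : ℝ)] (chart '' S) = c * volume S := by
  have hfin : Module.finrank ℝ (EuclideanSpace ℝ (Fin d)) = d := by simp
  have hker : (chartLin d).ker = ⊥ := by
    rw [LinearMap.ker_eq_bot']
    intro x hx
    ext i
    have := congrArg (fun z : EuclideanSpace ℝ (Fin (d + 1)) => z i.succ) hx
    simpa [chartLin] using this
  have hnd : (chartLin d).normDet ≠ 0 := (chartLin d).normDet_ne_zero_tfae.out 0 1 |>.mpr hker
  have hH : (μH[(d : ℝ)] : Measure (EuclideanSpace ℝ (Fin d))).IsAddHaarMeasure := by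
    have := MeasureTheory.isAddHaarMeasure_hausdorffMeasure (E := EuclideanSpace ℝ (Fin d))
    rwa [hfin] at this
  obtain ⟨c₁, hc0, hct, hc⟩ : ∃ c : ℝ≥0∞, c ≠ 0 ∧ c ≠ ∞ ∧
      (μH[(d : ℝ)] : Measure (EuclideanSpace ℝ (Fin d))) = c • volume := by
    refine ⟨(Measure.addHaarScalarFactor
      (μH[(d : ℝ)] : Measure (EuclideanSpace ℝ (Fin d))) volume : ℝ≥0∞), ?_, ?_, ?_⟩
    · have := Measure.addHaarScalarFactor_pos_of_isAddHaarMeasure
        (μH[(d : ℝ)] : Measure (EuclideanSpace ℝ (Fin d))) volume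
      exact_mod_cast this.ne'
    · exact ENNReal.coe_ne_top
    · exact Measure.isAddLeftInvariant_eq_smul _ _
  refine ⟨ENNReal.ofReal (chartLin d).normDet * c₁, ?_, ?_, ?_⟩
  · apply mul_ne_zero _ hc0
    rw [Ne, ENNReal.ofReal_eq_zero, not_le]
    exact lt_of_le_of_ne (LinearMap.normDet_nonneg _) hnd.symm
  · exact ENNReal.mul_ne_top ENNReal.ofReal_ne_top hct
  · intro S
    have h1 : chart '' S = (fun z => chart (fun _ : Fin d => (0 : ℝ)) + z) ''
        ((chartLin d) '' ((WithLp.toLp 2 : (Fin d → ℝ) → EuclideanSpace ℝ (Fin d)) '' S)) := by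
      rw [Set.image_image, Set.image_image]
      exact Set.image_congr fun x _ => chart_eq x
    rw [h1, Isometry.hausdorffMeasure_image (isometry_add_left _) (Or.inl (Nat.cast_nonneg d))]
    have h2 := LinearMap.hausdorffMeasure_image (chartLin d)
      ((WithLp.toLp 2 : (Fin d → ℝ) → EuclideanSpace ℝ (Fin d)) '' S)
    rw [hfin] at h2
    rw [h2, hc, mul_assoc]
    congr 1
    rw [Measure.smul_apply, smul_eq_mul]
    congr 1
    have h3 : (WithLp.toLp 2 : (Fin d → ℝ) → EuclideanSpace ℝ (Fin d)) '' S =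
        (MeasurableEquiv.toLp 2 (Fin d → ℝ)).symm ⁻¹' S := by
      rw [← MeasurableEquiv.image_eq_preimage_symm]
      rfl
    rw [h3]
    exact (EuclideanSpace.volume_preserving_symm_measurableEquiv_toLp (Fin d)).measure_preimage_equiv S

end Pool.Agent.Q170.Susp
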