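import Mathlib

open MeasureTheory
open scoped ENNReal MeasureTheory

namespace Pool.Agent.Q170.Susp

/-- The matrix `W_w`: its `ij` entry is the weight of the edge `ij` if `ij` is an edge of `G`
and `0` otherwise. -/
noncomputable def weightMatrix {N : ℕ} (G : SimpleGraph (Fin N)) (w : Sym2 (Fin N) → ℝ) :
    Matrix (Fin N) (Fin N) ℝ :=
  open Classical in Matrix.of fun i j => if G.Adj i j then w s(i, j) else 0

/-- The weighted Laplacian `L_w = D_w - W_w`. -/
noncomputable def laplacian {N : ℕ} (G : SimpleGraph (Fin N)) (w : Sym2 (Fin N) → ℝ) :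
    Matrix (Fin N) (Fin N) ℝ :=
  Matrix.diagonal (fun i => ∑ j, weightMatrix G w i j) - weightMatrix G w

/-- The tuple `lam` is realizable by `G`: for some weighting by nonnegative reals of the edges
of `G`, the multiset of eigenvalues of the weighted Laplacian (the roots of its characteristic
polynomial, with multiplicity) is `{0, lam_1, ..., lam_{N-1}}`. -/
def Realizable {N : ℕ} (G : SimpleGraph (Fin N)) (lam : Fin (N - 1) → ℝ) : Prop :=
  ∃ w : Sym2 (Fin N) → ℝ, (∀ e ∈ G.edgeSet, 0 ≤ w e) ∧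
    (laplacian G w).charpoly.roots = 0 ::ₘ Multiset.map lam Finset.univ.val

/-- The simplex `R` of nonnegative `m`-tuples with sum `1`. -/
def simplexR (m : ℕ) : Set (EuclideanSpace ℝ (Fin m)) :=
  {lam | (∀ i, 0 ≤ lam i) ∧ ∑ i, lam i = 1}

/-- `P(G)`: the `(N-2)`-dimensional Hausdorff measure of the set of realizable tuples in `R`
divided by the `(N-2)`-dimensional Hausdorff measure of `R`. -/
noncomputable def realizableRatio {N : ℕ} (G : SimpleGraph (Fin N)) : ℝ≥0∞ :=
  μH[((N - 2 : ℕ) : ℝ)] {lam | lam ∈ simplexR (N - 1) ∧ Realizable G (fun i => lam i)} /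
    μH[((N - 2 : ℕ) : ℝ)] (simplexR (N - 1))

/-- The suspension: one new vertex (the last one) adjacent to every old vertex. -/
def suspension {N : ℕ} (G : SimpleGraph (Fin N)) : SimpleGraph (Fin (N + 1)) where
  Adj x y := (∃ i j, G.Adj i j ∧ x = i.castSucc ∧ y = j.castSucc) ∨
    (x = Fin.last N ∧ y ≠ Fin.last N) ∨ (x ≠ Fin.last N ∧ y = Fin.last N)
  symm := by
    refine ⟨fun x y h => ?_⟩
    rcases h with ⟨i, j, h, hx, hy⟩ | ⟨hx, hy⟩ | ⟨hx, hy⟩
    · exact Or.inl ⟨j, i, h.symm, hy, hx⟩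
    · exact Or.inr (Or.inr ⟨hy, hx⟩)
    · exact Or.inr (Or.inl ⟨hy, hx⟩)
  loopless := by
    refine ⟨fun x h => ?_⟩
    rcases h with ⟨i, j, h, hx, hy⟩ | ⟨hx, hy⟩ | ⟨hx, hy⟩
    · have : i = j := Fin.castSucc_injective _ (hx.symm.trans hy)
      exact h.ne this
    · exact hy hx
    · exact hx hy

/-- The iterated suspensions `G_0, G_1, G_2, ...`. -/
def iterSuspension {k : ℕ} (G₀ : SimpleGraph (Fin k)) : (n : ℕ) → SimpleGraph (Fin (k + n))
  | 0 => G₀
  | n + 1 => suspension (iterSuspension G₀ n)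

end Pool.Agent.Q170.Susp
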