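import Mathlib

open MeasureTheory Finset Set
open scoped ENNReal MeasureTheory Pointwise

namespace Pool.Agent.Q170.Susp

/-- The positive orthant. -/
def orth (ι : Type*) : Set (ι → ℝ) := {x | ∀ i, 0 ≤ x i}

/-- The full simplex. -/
def tri (ι : Type*) [Fintype ι] : Set (ι → ℝ) := {x | (∀ i, 0 ≤ x i) ∧ ∑ i, x i ≤ 1}

variable {ι κ : Type*} [Fintype ι] [Fintype κ]

/-- The exponential density. -/
noncomputable def dens (x : ι → ℝ) : ℝ≥0∞ :=
  (orth ι).indicator (fun x => ENNReal.ofReal (Real.exp (-∑ i, x i))) x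

/-- The exponential measure. -/
noncomputable def nu (S : Set (ι → ℝ)) : ℝ≥0∞ := ∫⁻ x in S, dens x

lemma measurableSet_orth : MeasurableSet (orth ι) := by
  have : orth ι = ⋂ i, {x : ι → ℝ | 0 ≤ x i} := by
    ext x
    simp [orth]
  rw [this]
  exact MeasurableSet.iInter fun i => measurableSet_le measurable_const (measurable_pi_apply i)

lemma measurable_dens : Measurable (dens : (ι → ℝ) → ℝ≥0∞) := by
  unfold dens
  apply Measurable.indicator _ measurableSet_orth
  fun_prop

lemma lintegral_exp_Ioi (s : ℝ) :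
    ∫⁻ t in Ioi s, ENNReal.ofReal (Real.exp (-t)) = ENNReal.ofReal (Real.exp (-s)) := by
  rw [← integral_exp_neg_Ioi s]
  rw [ofReal_integral_eq_lintegral_ofReal]
  · have h := exp_neg_integrableOn_Ioi s (b := 1) one_pos
    simp only [neg_mul, one_mul] at h
    exact h
  · exact Filter.Eventually.of_forall fun t => (Real.exp_pos _).le

/-- The kernel of the layer cake formula. -/
noncomputable def kern (x : ι → ℝ) (t : ℝ) : ℝ≥0∞ :=
  {p : (ι → ℝ) × ℝ | p.1 ∈ orth ι ∧ ∑ i, p.1 i ≤ p.2}.indicator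
    (fun p => ENNReal.ofReal (Real.exp (-p.2))) (x, t)

lemma measurable_kern : Measurable (Function.uncurry (kern : (ι → ℝ) → ℝ → ℝ≥0∞)) := by
  have h : MeasurableSet {p : (ι → ℝ) × ℝ | p.1 ∈ orth ι ∧ ∑ i, p.1 i ≤ p.2} := by
    have h1 : MeasurableSet {p : (ι → ℝ) × ℝ | ∑ i, p.1 i ≤ p.2} :=
      measurableSet_le (by fun_prop) measurable_snd
    exact (measurable_fst measurableSet_orth).inter h1
  have h2 : Measurable (fun p : (ι → ℝ) × ℝ => ENNReal.ofReal (Real.exp (-p.2))) := by
    fun_prop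
  have h3 : (Function.uncurry (kern : (ι → ℝ) → ℝ → ℝ≥0∞)) =
      {p : (ι → ℝ) × ℝ | p.1 ∈ orth ι ∧ ∑ i, p.1 i ≤ p.2}.indicator
        (fun p => ENNReal.ofReal (Real.exp (-p.2))) := by
    funext p
    rfl
  rw [h3]
  exact h2.indicator h

lemma dens_eq (x : ι → ℝ) : dens x = ∫⁻ t in Ioi (0 : ℝ), kern x t := by
  by_cases hx : x ∈ orth ι
  · have hs : 0 ≤ ∑ i, x i := Finset.sum_nonneg fun i _ => hx i
    have h1 : ∀ t, kern x t = (Ici (∑ i, x i)).indicator
        (fun t => ENNReal.ofReal (Real.exp (-t))) t := by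
      intro t
      unfold kern
      by_cases ht : ∑ i, x i ≤ t
      · rw [indicator_of_mem (s := {p : (ι → ℝ) × ℝ | p.1 ∈ orth ι ∧ ∑ i, p.1 i ≤ p.2})
          (a := (x, t)) ⟨hx, ht⟩, indicator_of_mem (s := Ici (∑ i, x i)) (a := t) ht]
      · rw [indicator_of_notMem (s := {p : (ι → ℝ) × ℝ | p.1 ∈ orth ι ∧ ∑ i, p.1 i ≤ p.2})
          (a := (x, t)) (fun h => ht h.2), indicator_of_notMem (s := Ici (∑ i, x i)) (a := t) ht]
    simp_rw [h1]
    rw [lintegral_indicator measurableSet_Ici, Measure.restrict_restrict measurableSet_Ici]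
    have h2 : (Ici (∑ i, x i) ∩ Ioi 0 : Set ℝ) =ᵐ[volume] Ioi (∑ i, x i) := by
      have h3 : (Ici (∑ i, x i) ∩ Ioi 0 : Set ℝ) =ᵐ[volume] (Ioi (∑ i, x i) ∩ Ioi 0 : Set ℝ) :=
        Ioi_ae_eq_Ici.symm.inter (Filter.EventuallyEq.refl _ _)
      have h4 : (Ioi (∑ i, x i) ∩ Ioi 0 : Set ℝ) = Ioi (∑ i, x i) := by
        apply inter_eq_left.mpr
        intro t ht
        exact lt_of_le_of_lt hs ht
      rwa [h4] at h3
    rw [setLIntegral_congr h2, lintegral_exp_Ioi]
    unfold dens
    rw [indicator_of_mem hx]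
  · unfold dens
    rw [indicator_of_notMem hx]
    have h1 : ∀ t, kern x t = 0 := by
      intro t
      unfold kern
      rw [indicator_of_notMem (fun h => hx h.1)]
    simp [h1]

/-- The normalizing constant. -/
noncomputable def gconst (d : ℕ) : ℝ≥0∞ :=
  ∫⁻ t in Ioi (0 : ℝ), ENNReal.ofReal (Real.exp (-t)) * ENNReal.ofReal (t ^ d)

lemma gconst_ne_top (d : ℕ) : gconst d ≠ ∞ := by
  have h := Real.GammaIntegral_convergent (s := (d : ℝ) + 1) (by positivity)
  have h2 : IntegrableOn (fun t : ℝ => Real.exp (-t) * t ^ d) (Ioi 0) := by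
    refine h.congr_fun (fun t ht => ?_) measurableSet_Ioi
    dsimp only
    rw [add_sub_cancel_right, Real.rpow_natCast]
  have h3 : gconst d = ∫⁻ t in Ioi (0 : ℝ), ENNReal.ofReal (Real.exp (-t) * t ^ d) := by
    unfold gconst
    apply setLIntegral_congr_fun measurableSet_Ioi
    intro t _
    dsimp only
    rw [ENNReal.ofReal_mul (Real.exp_pos _).le]
  rw [h3]
  exact h2.lintegral_lt_top.ne

lemma gconst_ne_zero (d : ℕ) : gconst d ≠ 0 := by
  intro h
  unfold gconst at h
  rw [lintegral_eq_zero_iff (by fun_prop)] at h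
  have h2 : ∀ᵐ t : ℝ ∂(volume.restrict (Ioi (0 : ℝ))), False := by
    filter_upwards [h, ae_restrict_mem measurableSet_Ioi] with t ht ht0
    have ht0' : 0 < t := ht0
    simp only [Pi.zero_apply, mul_eq_zero, ENNReal.ofReal_eq_zero] at ht
    rcases ht with ht | ht
    · exact absurd ht (not_le.mpr (Real.exp_pos _))
    · exact absurd ht (not_le.mpr (by positivity))
  rw [Filter.eventually_false_iff_eq_bot, ae_eq_bot] at h2
  rw [Measure.restrict_eq_zero] at h2
  simp at h2

/-- The scaling identity. -/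
theorem nu_eq (S : Set (ι → ℝ))
    (hcone : ∀ x ∈ S, ∀ t : ℝ, 0 < t → t • x ∈ S) :
    nu S = gconst (Fintype.card ι) * volume (S ∩ tri ι) := by
  unfold nu
  simp_rw [dens_eq]
  rw [lintegral_lintegral_swap measurable_kern.aemeasurable]
  have h1 : ∀ t ∈ Ioi (0 : ℝ), ∫⁻ x in S, kern x t =
      ENNReal.ofReal (Real.exp (-t)) * ENNReal.ofReal (t ^ Fintype.card ι) *
        volume (S ∩ tri ι) := by
    intro t ht
    have ht0 : 0 < t := ht
    have hms : MeasurableSet {x : ι → ℝ | x ∈ orth ι ∧ ∑ i, x i ≤ t} := by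
      have h5 : MeasurableSet {x : ι → ℝ | ∑ i, x i ≤ t} :=
        measurableSet_le (by fun_prop) measurable_const
      exact measurableSet_orth.inter h5
    have h2 : ∀ x : ι → ℝ, kern x t = {x : ι → ℝ | x ∈ orth ι ∧ ∑ i, x i ≤ t}.indicator
        (fun _ => ENNReal.ofReal (Real.exp (-t))) x := by
      intro x
      unfold kern
      by_cases hx : x ∈ orth ι ∧ ∑ i, x i ≤ t
      · rw [indicator_of_mem (s := {p : (ι → ℝ) × ℝ | p.1 ∈ orth ι ∧ ∑ i, p.1 i ≤ p.2})
          (a := (x, t)) hx, indicator_of_mem (s := {x : ι → ℝ | x ∈ orth ι ∧ ∑ i, x i ≤ t})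
          (a := x) hx]
      · rw [indicator_of_notMem (s := {p : (ι → ℝ) × ℝ | p.1 ∈ orth ι ∧ ∑ i, p.1 i ≤ p.2})
          (a := (x, t)) hx, indicator_of_notMem (s := {x : ι → ℝ | x ∈ orth ι ∧ ∑ i, x i ≤ t})
          (a := x) hx]
    simp_rw [h2]
    rw [lintegral_indicator hms, setLIntegral_const, Measure.restrict_apply hms, mul_assoc]
    congr 1
    have h3 : {x : ι → ℝ | x ∈ orth ι ∧ ∑ i, x i ≤ t} ∩ S = t • (S ∩ tri ι) := by
      ext x
      rw [mem_smul_set_iff_inv_smul_mem₀ ht0.ne']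
      constructor
      · rintro ⟨⟨hx1, hx2⟩, hx3⟩
        refine ⟨hcone x hx3 t⁻¹ (inv_pos.mpr ht0), fun i => ?_, ?_⟩
        · exact mul_nonneg (inv_pos.mpr ht0).le (hx1 i)
        · simp only [Pi.smul_apply, smul_eq_mul]
          rw [← Finset.mul_sum, inv_mul_le_iff₀ ht0, mul_one]
          exact hx2
      · rintro ⟨hx1, hx2, hx3⟩
        refine ⟨⟨fun i => ?_, ?_⟩, ?_⟩
        · have := hx2 i
          simp only [Pi.smul_apply, smul_eq_mul] at this
          exact (mul_nonneg_iff_of_pos_left (inv_pos.mpr ht0)).mp this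
        · simp only [Pi.smul_apply, smul_eq_mul] at hx3
          rw [← Finset.mul_sum, inv_mul_le_iff₀ ht0, mul_one] at hx3
          exact hx3
        · have := hcone _ hx1 t ht0
          rwa [smul_inv_smul₀ ht0.ne'] at this
    rw [h3, Measure.addHaar_smul, Module.finrank_fintype_fun_eq_card, abs_of_pos (by positivity)]
  rw [setLIntegral_congr_fun measurableSet_Ioi h1, lintegral_mul_const _ (by fun_prop)]
  rfl

lemma tri_volume_ne_top : volume (tri ι) ≠ ∞ := by
  have h : tri ι ⊆ Icc (0 : ι → ℝ) 1 := by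
    intro x hx
    refine ⟨fun i => hx.1 i, fun i => ?_⟩
    calc x i ≤ ∑ j, x j := Finset.single_le_sum (fun j _ => hx.1 j) (Finset.mem_univ i)
      _ ≤ 1 := hx.2
  exact ((measure_mono h).trans_lt isCompact_Icc.measure_lt_top).ne

/-- A nonempty open cone meeting the open orthant has positive volume in the simplex. -/
lemma volume_inter_tri_pos (V : Set (ι → ℝ)) (hV : IsOpen V)
    (hcone : ∀ x ∈ V, ∀ t : ℝ, 0 < t → t • x ∈ V) (x₀ : ι → ℝ) (hx₀ : x₀ ∈ V)
    (hpos : ∀ i, 0 < x₀ i) : 0 < volume (V ∩ tri ι) := by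
  have h1 : IsOpen (V ∩ {x : ι → ℝ | (∀ i, 0 < x i) ∧ ∑ i, x i < 1}) := by
    apply hV.inter
    have h2 : {x : ι → ℝ | (∀ i, 0 < x i) ∧ ∑ i, x i < 1} =
        (⋂ i, {x : ι → ℝ | 0 < x i}) ∩ {x : ι → ℝ | ∑ i, x i < 1} := by
      ext x
      simp
    rw [h2]
    apply IsOpen.inter
    · exact isOpen_iInter_of_finite fun i => isOpen_lt continuous_const (continuous_apply i)
    · exact isOpen_lt (by fun_prop) continuous_const
  have h3 : (V ∩ {x : ι → ℝ | (∀ i, 0 < x i) ∧ ∑ i, x i < 1}).Nonempty := by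
    set s := ∑ i, x₀ i with hs
    have hs0 : 0 ≤ s := Finset.sum_nonneg fun i _ => (hpos i).le
    refine ⟨(1 / (s + 1)) • x₀, hcone x₀ hx₀ _ (by positivity), fun i => ?_, ?_⟩
    · have := hpos i
      simp only [Pi.smul_apply, smul_eq_mul]
      positivity
    · simp only [Pi.smul_apply, smul_eq_mul]
      rw [← Finset.mul_sum, ← hs, one_div, inv_mul_lt_iff₀ (by positivity)]
      linarith
  refine (h1.measure_pos volume h3).trans_le (measure_mono ?_)
  apply Set.inter_subset_inter_right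
  intro x hx
  exact ⟨fun i => (hx.1 i).le, hx.2.le⟩

lemma tri_volume_pos : 0 < volume (tri ι) := by
  have := volume_inter_tri_pos (ι := ι) univ isOpen_univ (fun x _ t _ => mem_univ _)
    (fun _ => 1) (mem_univ _) (fun _ => one_pos)
  rwa [univ_inter] at this

lemma nu_univ : nu (univ : Set (ι → ℝ)) = gconst (Fintype.card ι) * volume (tri ι) := by
  rw [nu_eq univ (fun x _ t _ => mem_univ _), univ_inter]

lemma nu_univ_ne_top : nu (univ : Set (ι → ℝ)) ≠ ∞ := by
  rw [nu_univ]
  exact ENNReal.mul_ne_top (gconst_ne_top _) tri_volume_ne_top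

lemma nu_univ_ne_zero : nu (univ : Set (ι → ℝ)) ≠ 0 := by
  rw [nu_univ]
  exact mul_ne_zero (gconst_ne_zero _) tri_volume_pos.ne'

lemma nu_mono {A B : Set (ι → ℝ)} (h : A ⊆ B) : nu A ≤ nu B :=
  lintegral_mono_set h

/-- Product formula. -/
lemma nu_sum (A : Set (ι → ℝ)) (B : Set (κ → ℝ)) (hA : MeasurableSet A)
    (hB : MeasurableSet B) :
    nu {x : ι ⊕ κ → ℝ | (fun i => x (Sum.inl i)) ∈ A ∧ (fun i => x (Sum.inr i)) ∈ B} =
      nu A * nu B := by
  set S : Set (ι ⊕ κ → ℝ) :=
    {x : ι ⊕ κ → ℝ | (fun i => x (Sum.inl i)) ∈ A ∧ (fun i => x (Sum.inr i)) ∈ B} with hS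
  have hSm : MeasurableSet S := by
    apply MeasurableSet.inter
    · exact (measurable_pi_lambda _ fun i => measurable_pi_apply _) hA
    · exact (measurable_pi_lambda _ fun i => measurable_pi_apply _) hB
  have hmp := volume_measurePreserving_sumPiEquivProdPi_symm (fun _ : ι ⊕ κ => ℝ)
  have h1 : nu S = ∫⁻ p in A ×ˢ B, dens p.1 * dens p.2 ∂(volume.prod volume) := by
    unfold nu
    rw [← lintegral_indicator hSm, ← lintegral_indicator (hA.prod hB)]
    rw [← hmp.lintegral_comp_emb (MeasurableEquiv.measurableEmbedding _)]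
    apply lintegral_congr
    rintro ⟨a, b⟩
    set x : ι ⊕ κ → ℝ := (MeasurableEquiv.sumPiEquivProdPi fun _ : ι ⊕ κ => ℝ).symm (a, b) with hx
    have hxa : ∀ i, x (Sum.inl i) = a i := fun i => rfl
    have hxb : ∀ i, x (Sum.inr i) = b i := fun i => rfl
    have hmem : x ∈ S ↔ (a, b) ∈ A ×ˢ B := by
      rw [hS]
      simp only [Set.mem_ofPred_eq, hxa, hxb, mem_prod]
    have hd : dens x = dens a * dens b := by
      unfold dens
      by_cases ha : a ∈ orth ι
      · by_cases hb : b ∈ orth κ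
        · have hx' : x ∈ orth (ι ⊕ κ) := by
            rintro (i | i)
            · rw [hxa]; exact ha i
            · rw [hxb]; exact hb i
          rw [indicator_of_mem ha, indicator_of_mem hb, indicator_of_mem hx',
            ← ENNReal.ofReal_mul (Real.exp_pos _).le, ← Real.exp_add]
          congr 2
          rw [Fintype.sum_sum_type]
          simp only [hxa, hxb]
          ring
        · have hx' : x ∉ orth (ι ⊕ κ) := fun h => hb fun i => by rw [← hxb]; exact h _
          rw [indicator_of_notMem hb, indicator_of_notMem hx', mul_zero]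
      · have hx' : x ∉ orth (ι ⊕ κ) := fun h => ha fun i => by rw [← hxa]; exact h _
        rw [indicator_of_notMem ha, indicator_of_notMem hx', zero_mul]
    by_cases hm : x ∈ S
    · rw [indicator_of_mem hm, indicator_of_mem (hmem.mp hm), hd]
    · rw [indicator_of_notMem hm, indicator_of_notMem (fun h => hm (hmem.mpr h))]
  rw [h1, ← Measure.prod_restrict, lintegral_prod_mul measurable_dens.aemeasurable
    measurable_dens.aemeasurable]
  rfl

lemma nu_reindex (e : ι ≃ κ) (A : Set (ι → ℝ)) (hA : MeasurableSet A) :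
    nu {x : κ → ℝ | (fun i => x (e i)) ∈ A} = nu A := by
  have hmp := volume_measurePreserving_piCongrLeft (fun _ : κ => ℝ) e
  unfold nu
  have hm : MeasurableSet {x : κ → ℝ | (fun i => x (e i)) ∈ A} :=
    (measurable_pi_lambda _ fun i => measurable_pi_apply _) hA
  rw [← lintegral_indicator hm, ← lintegral_indicator hA]
  rw [← hmp.lintegral_comp_emb (MeasurableEquiv.measurableEmbedding _)]
  apply lintegral_congr
  intro a
  set x : κ → ℝ := (MeasurableEquiv.piCongrLeft (fun _ : κ => ℝ) e) a with hx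
  have hxa : ∀ i, x (e i) = a i := by
    intro i
    rw [hx]
    simp [MeasurableEquiv.coe_piCongrLeft, Equiv.piCongrLeft_apply_apply]
  have hmem : x ∈ {x : κ → ℝ | (fun i => x (e i)) ∈ A} ↔ a ∈ A := by
    simp only [Set.mem_ofPred_eq, hxa]
  have horth : x ∈ orth κ ↔ a ∈ orth ι := by
    constructor
    · intro h i
      rw [← hxa]
      exact h _
    · intro h j
      obtain ⟨i, rfl⟩ := e.surjective j
      rw [hxa]
      exact h i
  have hd : dens x = dens a := by
    unfold dens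
    by_cases ha : a ∈ orth ι
    · rw [indicator_of_mem ha, indicator_of_mem (horth.mpr ha)]
      congr 3
      rw [← Equiv.sum_comp e]
      exact Finset.sum_congr rfl fun i _ => hxa i
    · rw [indicator_of_notMem ha, indicator_of_notMem (fun h => ha (horth.mp h))]
  by_cases hm : a ∈ A
  · rw [indicator_of_mem hm, indicator_of_mem (hmem.mpr hm), hd]
  · rw [indicator_of_notMem hm, indicator_of_notMem (fun h => hm (hmem.mp h))]

end Pool.Agent.Q170.Susp
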