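import Pool.Agent.Q170.Susp.Main

open MeasureTheory Finset Set Filter Topology
open scoped ENNReal MeasureTheory

namespace Pool.Agent.Q170.Susp

lemma chart_image_tri (d : ℕ) : chart '' tri (Fin d) = simplexR (d + 1) := by
  ext lam
  constructor
  · rintro ⟨x, ⟨hx1, hx2⟩, rfl⟩
    refine ⟨fun i => ?_, ?_⟩
    · refine Fin.cases ?_ (fun i => ?_) i
      · simp only [chart, Fin.cons_zero]
        linarith
      · simp only [chart, Fin.cons_succ]
        exact hx1 i
    · simp [chart, Fin.sum_univ_succ]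
  · rintro ⟨h1, h2⟩
    rw [Fin.sum_univ_succ] at h2
    refine ⟨fun i => lam i.succ, ⟨fun i => h1 _, ?_⟩, ?_⟩
    · have := h1 0
      linarith
    · ext i
      refine Fin.cases ?_ (fun i => ?_) i
      · simp only [chart, Fin.cons_zero]
        linarith
      · simp only [chart, Fin.cons_succ]

lemma chart_image_realizable {d : ℕ} (G : SimpleGraph (Fin (d + 2))) :
    {lam : EuclideanSpace ℝ (Fin (d + 1)) | lam ∈ simplexR (d + 1) ∧
      Realizable (N := d + 2) G (fun i => lam i)} =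
    chart '' {x | x ∈ tri (Fin d) ∧
      Realizable (N := d + 2) G (Fin.cons (1 - ∑ i, x i) x : Fin (d + 1) → ℝ)} := by
  ext lam
  constructor
  · rintro ⟨h1, h2⟩
    rw [← chart_image_tri] at h1
    obtain ⟨x, hx, rfl⟩ := h1
    exact ⟨x, ⟨hx, h2⟩, rfl⟩
  · rintro ⟨x, ⟨hx, h2⟩, rfl⟩
    refine ⟨?_, h2⟩
    rw [← chart_image_tri]
    exact ⟨x, hx, rfl⟩

lemma ratio_eq {d : ℕ} (G : SimpleGraph (Fin (d + 2))) :
    realizableRatio G = volume {x | x ∈ tri (Fin d) ∧
      Realizable (N := d + 2) G (Fin.cons (1 - ∑ i, x i) x : Fin (d + 1) → ℝ)} /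
        volume (tri (Fin d)) := by
  obtain ⟨c, hc0, hct, hc⟩ := hausdorff_chart d
  have h1 : realizableRatio G = μH[(d : ℝ)] {lam : EuclideanSpace ℝ (Fin (d + 1)) |
      lam ∈ simplexR (d + 1) ∧ Realizable (N := d + 2) G (fun i => lam i)} /
        μH[(d : ℝ)] (simplexR (d + 1)) := rfl
  rw [h1, chart_image_realizable, ← chart_image_tri, hc, hc]
  exact ENNReal.mul_div_mul_left _ _ hc0 hct

lemma ratio_le_one {d : ℕ} (G : SimpleGraph (Fin (d + 2))) : realizableRatio G ≤ 1 := by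
  rw [ratio_eq]
  apply ENNReal.div_le_of_le_mul
  rw [one_mul]
  exact measure_mono fun x hx => hx.1

lemma ratio_ge {k q : ℕ} (G : SimpleGraph (Fin (k + q + 2)))
    (hG : AlmostComplete k G) (β₀ : Fin k → ℝ) (ε₀ ε : ℝ) (hε₀ : 2 * ε ≤ ε₀)
    (hεβ : ∀ j, 2 * ε ≤ β₀ j)
    (hstar : ∀ β : Fin k → ℝ, (∀ j, |β j - β₀ j| < ε₀) → StarReal β)
    (J : ℕ) (hJ : (k + 1) * J ≤ k + q) :
    1 ≤ realizableRatio G + theta (coneV β₀ ε) ^ J := by
  rw [ratio_eq]
  set A : Set (Fin (k + q) → ℝ) := {x | x ∈ tri (Fin (k + q)) ∧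
      Realizable (N := k + q + 2) G (Fin.cons (1 - ∑ i, x i) x : Fin (k + q + 1) → ℝ)} with hA
  set V := coneV β₀ ε with hV
  have hcover : tri (Fin (k + q)) ⊆ (A ∪ (bad V (Fin (k + q)) ∩ tri (Fin (k + q)))) ∪
      excep (k + q) := by
    intro x hx
    by_cases h1 : x ∈ excep (k + q)
    · exact Or.inr h1
    by_cases h2 : x ∈ bad V (Fin (k + q))
    · exact Or.inl (Or.inr ⟨h2, hx⟩)
    left
    left
    refine ⟨hx, ?_⟩
    unfold excep at h1
    rw [Set.mem_ofPred_eq, not_not] at h1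
    unfold bad at h2
    rw [Set.mem_ofPred_eq] at h2
    push Not at h2
    obtain ⟨σ, hσ⟩ := h2
    apply realizable_of_coneV G hG β₀ ε₀ ε hε₀ hεβ hstar _ h1.1 ?_
      (σ.trans (Fin.succEmb (k + q))) ?_
    · intro i
      apply lt_of_le_of_ne _ (h1.2 i).symm
      refine Fin.cases ?_ (fun i => ?_) i
      · rw [Fin.cons_zero]
        linarith [hx.2]
      · rw [Fin.cons_succ]
        exact hx.1 i
    · exact hσ
  have h1 : volume (tri (Fin (k + q))) ≤ volume A +
      theta V ^ J * volume (tri (Fin (k + q))) := by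
    calc volume (tri (Fin (k + q))) ≤ volume ((A ∪ (bad V (Fin (k + q)) ∩ tri (Fin (k + q)))) ∪
          excep (k + q)) := measure_mono hcover
      _ ≤ volume (A ∪ (bad V (Fin (k + q)) ∩ tri (Fin (k + q)))) + volume (excep (k + q)) :=
          measure_union_le _ _
      _ = volume (A ∪ (bad V (Fin (k + q)) ∩ tri (Fin (k + q)))) := by
          rw [volume_excep, add_zero]
      _ ≤ volume A + volume (bad V (Fin (k + q)) ∩ tri (Fin (k + q))) := measure_union_le _ _
      _ ≤ _ := by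
          gcongr
          exact volume_bad_le (isOpen_coneV β₀ ε) (coneV_cone β₀ ε) J (k + q) hJ
  have h0 : volume (tri (Fin (k + q))) ≠ 0 := tri_volume_pos.ne'
  have ht : volume (tri (Fin (k + q))) ≠ ∞ := tri_volume_ne_top
  have h2 : volume (tri (Fin (k + q))) / volume (tri (Fin (k + q))) ≤
      (volume A + theta V ^ J * volume (tri (Fin (k + q)))) / volume (tri (Fin (k + q))) :=
    ENNReal.div_le_div_right h1 _
  rwa [ENNReal.div_self h0 ht, ENNReal.add_div, mul_div_assoc, ENNReal.div_self h0 ht,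
    mul_one] at h2

lemma exists_params (k : ℕ) : ∃ (β₀ : Fin k → ℝ) (ε₀ ε : ℝ), 0 < ε ∧ 2 * ε ≤ ε₀ ∧
    (∀ j, 2 * ε ≤ β₀ j) ∧ (∀ j, 0 < β₀ j) ∧
    ∀ β : Fin k → ℝ, (∀ j, |β j - β₀ j| < ε₀) → StarReal β := by
  obtain ⟨β₀, hpos, ε₀, hε₀, hstar⟩ := star_open k
  obtain ⟨δ, hδ, hδβ⟩ : ∃ δ > 0, ∀ j, δ ≤ β₀ j := by
    rcases isEmpty_or_nonempty (Fin k) with h | h
    · exact ⟨1, one_pos, fun j => h.elim j⟩
    · obtain ⟨j₀, hj₀⟩ := Finite.exists_min β₀
      exact ⟨β₀ j₀, hpos j₀, hj₀⟩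
  refine ⟨β₀, ε₀, min ε₀ δ / 2, ?_, ?_, ?_, hpos, hstar⟩
  · have : 0 < min ε₀ δ := lt_min hε₀ hδ
    linarith
  · have := min_le_left ε₀ δ
    linarith
  · intro j
    have := min_le_right ε₀ δ
    linarith [hδβ j]

/-- The main theorem, for iterated suspensions of an arbitrary graph. -/
theorem tendsto_ratio {k : ℕ} (G₀ : SimpleGraph (Fin k)) :
    Tendsto (fun n => realizableRatio (iterSuspension G₀ n)) atTop (𝓝 1) := by
  obtain ⟨β₀, ε₀, ε, hε, hε₀, hεβ, hpos, hstar⟩ := exists_params k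
  have hθ : theta (coneV β₀ ε) < 1 := by
    apply theta_lt_one (isOpen_coneV β₀ ε) (coneV_cone β₀ ε) (Fin.cons (ε / 2) β₀)
    · refine ⟨1, one_pos, ?_, ?_, fun j => ?_⟩
      · rw [Fin.cons_zero]; linarith
      · rw [Fin.cons_zero]; linarith
      · rw [Fin.cons_succ]
        simp [hε]
    · intro i
      refine Fin.cases ?_ (fun i => ?_) i
      · rw [Fin.cons_zero]; linarith
      · rw [Fin.cons_succ]; exact hpos i
  have hle : ∀ n, 2 ≤ n → realizableRatio (iterSuspension G₀ n) ≤ 1 := by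
    intro n hn
    obtain ⟨q, rfl⟩ : ∃ q, n = q + 2 := ⟨n - 2, by omega⟩
    exact ratio_le_one (d := k + q) (iterSuspension G₀ (q + 2))
  rw [tendsto_order]
  constructor
  · intro a ha
    have h1 : Tendsto (fun J : ℕ => theta (coneV β₀ ε) ^ J) atTop (𝓝 0) :=
      ENNReal.tendsto_pow_atTop_nhds_zero_of_lt_one hθ
    have h2 : 0 < 1 - a := tsub_pos_of_lt ha
    obtain ⟨J, hJ⟩ := (h1.eventually (gt_mem_nhds h2)).exists
    filter_upwards [eventually_ge_atTop ((k + 1) * J + 2)] with n hn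
    obtain ⟨q, rfl⟩ : ∃ q, n = q + 2 := ⟨n - 2, by omega⟩
    have h3 := ratio_ge (k := k) (q := q) (iterSuspension G₀ (q + 2))
      (almostComplete_iterSuspension G₀ (q + 2)) β₀ ε₀ ε hε₀ hεβ hstar J (by omega)
    by_contra hcon
    rw [not_lt] at hcon
    have h4 : (1 : ℝ≥0∞) < 1 := by
      calc (1 : ℝ≥0∞) ≤ realizableRatio (iterSuspension G₀ (q + 2)) +
            theta (coneV β₀ ε) ^ J := h3
        _ ≤ a + theta (coneV β₀ ε) ^ J := by gcongr
        _ < a + (1 - a) := (ENNReal.add_lt_add_iff_left (ne_top_of_lt ha)).mpr hJ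
        _ = 1 := add_tsub_cancel_of_le ha.le
    exact lt_irrefl _ h4
  · intro a ha
    filter_upwards [eventually_ge_atTop 2] with n hn
    exact lt_of_le_of_lt (hle n hn) ha

end Pool.Agent.Q170.Susp
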