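import Pool.Agent.Q170.Susp.Linear
import Pool.Agent.Q170.Susp.Defs

open Finset

namespace Pool.Agent.Q170.Susp

lemma isRoot_of_eigen {N : ℕ} (L : Matrix (Fin N) (Fin N) ℝ) (μ : ℝ) (x : Fin N → ℝ) (hx : x ≠ 0)
    (h : L.mulVec x = μ • x) : L.charpoly.IsRoot μ := by
  rw [Polynomial.IsRoot, Matrix.eval_charpoly]
  rw [← Matrix.exists_mulVec_eq_zero_iff]
  refine ⟨x, hx, ?_⟩
  rw [Matrix.sub_mulVec, h]
  funext i
  simp

/-- A graph in which any two distinct vertices, not both among the first `k`, are adjacent. -/
def AlmostComplete {N : ℕ} (k : ℕ) (G : SimpleGraph (Fin N)) : Prop :=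
  ∀ i j : Fin N, i ≠ j → (k ≤ i.val ∨ k ≤ j.val) → G.Adj i j

lemma almostComplete_iterSuspension {k : ℕ} (G₀ : SimpleGraph (Fin k)) (n : ℕ) :
    AlmostComplete k (iterSuspension G₀ n) := by
  induction n with
  | zero =>
    intro i j _ h
    have h1 := i.isLt
    have h2 := j.isLt
    rcases h with h | h <;> omega
  | succ n ih =>
    intro i j hij h
    show (suspension (iterSuspension G₀ n)).Adj i j
    by_cases hi : i = Fin.last (k + n)
    · refine Or.inr (Or.inl ⟨hi, ?_⟩)
      rintro rfl
      exact hij hi
    · by_cases hj : j = Fin.last (k + n)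
      · exact Or.inr (Or.inr ⟨hi, hj⟩)
      · obtain ⟨i', rfl⟩ := Fin.exists_castSucc_eq.mpr hi
        obtain ⟨j', rfl⟩ := Fin.exists_castSucc_eq.mpr hj
        refine Or.inl ⟨i', j', ?_, rfl, rfl⟩
        apply ih i' j'
        · rintro rfl
          exact hij rfl
        · simpa using h

/-- If all the entries of `lam` are positive, distinct, and eigenvalues of a symmetric weight
vanishing on pairs of old vertices, then `lam` is realizable. -/
lemma realizable_of_eigR {d k : ℕ} (G : SimpleGraph (Fin (d + 2))) (hG : AlmostComplete k G)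
    (w : Fin (d + 2) → Fin (d + 2) → ℝ) (hsym : ∀ i j, w i j = w j i) (hnn : ∀ i j, 0 ≤ w i j)
    (hold : ∀ i j : Fin (d + 2), i.val < k → j.val < k → w i j = 0)
    (lam : Fin (d + 1) → ℝ) (hinj : Function.Injective lam) (hpos : ∀ i, 0 < lam i)
    (hE : ∀ i, EigR w (lam i)) : Realizable (N := d + 2) G lam := by
  classical
  refine ⟨Sym2.lift ⟨w, hsym⟩, ?_, ?_⟩
  · intro e _
    induction e using Sym2.ind with
    | _ x y => exact hnn x y
  · set L := laplacian G (Sym2.lift ⟨w, hsym⟩) with hL
    have hW : ∀ i j, i ≠ j → weightMatrix G (Sym2.lift ⟨w, hsym⟩) i j = w i j := by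
      intro i j hij
      simp only [weightMatrix, Matrix.of_apply, Sym2.lift_mk]
      split_ifs with h
      · rfl
      · symm
        by_contra hne
        apply h
        apply hG i j hij
        by_contra hcon
        push Not at hcon
        exact hne (hold i j hcon.1 hcon.2)
    have hLx : ∀ x : Fin (d + 2) → ℝ, ∀ i, L.mulVec x i = ∑ j, w i j * (x i - x j) := by
      intro x i
      rw [hL, laplacian, Matrix.sub_mulVec, Pi.sub_apply, Matrix.mulVec_diagonal]
      rw [Matrix.mulVec, dotProduct, Finset.sum_mul, ← Finset.sum_sub_distrib]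
      apply Finset.sum_congr rfl
      intro j _
      by_cases hij : i = j
      · subst hij
        simp
      · rw [hW i j hij]
        ring
    have hroot0 : L.charpoly.IsRoot 0 := by
      apply isRoot_of_eigen L 0 (fun _ => 1)
      · intro h
        have := congrFun h 0
        simp at this
      · funext i
        rw [hLx]
        simp
    have hroot : ∀ i, L.charpoly.IsRoot (lam i) := by
      intro i
      obtain ⟨x, hx0, hxs, hx⟩ := hE i
      apply isRoot_of_eigen L (lam i) x hx0
      funext v
      rw [hLx, hx v]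
      simp
    have hmonic := Matrix.charpoly_monic L
    have hdeg : L.charpoly.natDegree = d + 2 := by
      rw [Matrix.charpoly_natDegree_eq_dim, Fintype.card_fin]
    have hne : L.charpoly ≠ 0 := hmonic.ne_zero
    have hnodup : (0 ::ₘ Multiset.map lam Finset.univ.val).Nodup := by
      rw [Multiset.nodup_cons]
      refine ⟨?_, Finset.univ.nodup.map hinj⟩
      intro h
      rw [Multiset.mem_map] at h
      obtain ⟨i, _, hi⟩ := h
      exact (hpos i).ne' hi
    have hle : (0 ::ₘ Multiset.map lam Finset.univ.val) ≤ L.charpoly.roots := by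
      rw [Multiset.le_iff_subset hnodup]
      intro a ha
      rw [Multiset.mem_cons] at ha
      rw [Polynomial.mem_roots hne]
      rcases ha with rfl | ha
      · exact hroot0
      · rw [Multiset.mem_map] at ha
        obtain ⟨i, _, rfl⟩ := ha
        exact hroot i
    symm
    apply Multiset.eq_of_le_of_card_le hle
    calc L.charpoly.roots.card ≤ L.charpoly.natDegree := Polynomial.card_roots' _
      _ = d + 2 := hdeg
      _ = _ := by simp

/-- The vertex set of the big graph as a star block and a complete block. -/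
def blockEquiv (k q : ℕ) : (Fin k ⊕ Fin 1) ⊕ Fin (q + 1) ≃ Fin (k + q + 2) :=
  ((Equiv.sumCongr finSumFinEquiv (Equiv.refl _)).trans finSumFinEquiv).trans
    (finCongr (by omega))

lemma blockEquiv_symm_old (k q : ℕ) (v : Fin (k + q + 2)) (hv : v.val < k) :
    ∃ i : Fin k, (blockEquiv k q).symm v = Sum.inl (Sum.inl i) := by
  refine ⟨⟨v.val, hv⟩, ?_⟩
  rw [Equiv.symm_apply_eq]
  apply Fin.ext
  simp [blockEquiv]

/-- The block sufficient condition for realizability. -/
theorem realizable_of_block {k q : ℕ} (G : SimpleGraph (Fin (k + q + 2)))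
    (hG : AlmostComplete k G) (lam : Fin (k + q + 1) → ℝ) (hinj : Function.Injective lam)
    (hpos : ∀ i, 0 < lam i) (σ : Fin k ↪ Fin (k + q + 1)) (i₀ : Fin (k + q + 1))
    (hmin : ∀ i, lam i₀ ≤ lam i) (hi₀ : ∀ j, σ j ≠ i₀) (w : Fin k → ℝ) (hw : ∀ i, 0 ≤ w i)
    (hstar : ∀ j, EigR (starW w) (lam (σ j) - lam i₀ / (k + q + 2) * (q + 1))) :
    Realizable (N := k + q + 2) G lam := by
  classical
  set c : ℝ := lam i₀ / (k + q + 2) with hc
  have hk : (0 : ℝ) ≤ k := Nat.cast_nonneg k
  have hq : (0 : ℝ) ≤ q := Nat.cast_nonneg q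
  have hden : (0 : ℝ) < k + q + 2 := by positivity
  have hcpos : 0 < c := div_pos (hpos i₀) hden
  -- the rest
  set I : Finset (Fin (k + q + 1)) := (Finset.univ \ (Finset.univ.map σ)).erase i₀ with hI
  have hIcard : I.card = q := by
    rw [hI, Finset.card_erase_of_mem, Finset.card_sdiff_of_subset (Finset.subset_univ _)]
    · simp
      omega
    · simp [hi₀]
  set s : Finset ℝ := I.image (fun i => lam i - c * (k + 1)) with hs
  have hscard : s.card = q := by
    rw [hs, Finset.card_image_of_injective _ ?_, hIcard]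
    intro a b hab
    apply hinj
    simpa using hab
  have hspos : ∀ μ ∈ s, 0 < μ := by
    intro μ hμ
    rw [hs, Finset.mem_image] at hμ
    obtain ⟨i, _, rfl⟩ := hμ
    have h1 : c * (k + 1) < lam i₀ := by
      rw [hc, div_mul_eq_mul_div, div_lt_iff₀ hden]
      nlinarith [hpos i₀]
    linarith [hmin i]
  obtain ⟨wA, hAsym, hAnn, hA⟩ := complete_real q s hscard hspos
  set W := joinW (starW w) wA c with hW
  refine realizable_of_eigR G hG (fun i j => W ((blockEquiv k q).symm i) ((blockEquiv k q).symm j))
    (fun i j => joinW_symm (starW_symm w) hAsym _ _)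
    (fun i j => joinW_nonneg (starW_nonneg hw) hAnn hcpos.le _ _) ?_ lam hinj hpos ?_
  · intro i j hi hj
    obtain ⟨i', hi'⟩ := blockEquiv_symm_old k q i hi
    obtain ⟨j', hj'⟩ := blockEquiv_symm_old k q j hj
    simp only [hi', hj', hW, joinW, starW]
  · intro i
    apply EigR.comp_equiv (w := W)
    by_cases h0 : i = i₀
    · have h := EigR.join_mid (starW w) wA c
      have h2 : lam i = c * ((Fintype.card (Fin k ⊕ Fin 1) : ℝ) + (Fintype.card (Fin (q + 1)) : ℝ)) := by
        rw [h0, hc]
        simp
        field_simp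
        ring
      rw [h2]
      exact h
    · by_cases hr : ∃ j, σ j = i
      · obtain ⟨j, rfl⟩ := hr
        have h := (hstar j).join_left wA c
        have h2 : lam (σ j) = lam (σ j) - c * (q + 1) + c * (Fintype.card (Fin (q + 1)) : ℝ) := by
          simp
        rw [h2]
        exact h
      · have hmem : lam i - c * (k + 1) ∈ s := by
          rw [hs, Finset.mem_image]
          refine ⟨i, ?_, rfl⟩
          rw [hI, Finset.mem_erase]
          refine ⟨h0, ?_⟩
          rw [Finset.mem_sdiff]
          refine ⟨Finset.mem_univ _, ?_⟩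
          simpa using hr
        have h := (hA _ hmem).join_right (starW w) c
        have h2 : lam i = lam i - c * (k + 1) + c * (Fintype.card (Fin k ⊕ Fin 1) : ℝ) := by
          simp
        rw [h2]
        exact h

end Pool.Agent.Q170.Susp
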