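import Mathlib

open Finset

namespace Pool.Agent.Q170.Susp

/-- `μ` is an eigenvalue of the Laplacian of the weight `w`, with an eigenvector orthogonal
to the constants. -/
def EigR {V : Type*} [Fintype V] (w : V → V → ℝ) (μ : ℝ) : Prop :=
  ∃ x : V → ℝ, x ≠ 0 ∧ ∑ i, x i = 0 ∧ ∀ i, ∑ j, w i j * (x i - x j) = μ * x i

lemma EigR.comp_equiv {V U : Type*} [Fintype V] [Fintype U] {w : U → U → ℝ} {μ : ℝ}
    (h : EigR w μ) (e : V ≃ U) : EigR (fun i j => w (e i) (e j)) μ := by
  obtain ⟨x, hx0, hxs, hx⟩ := h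
  refine ⟨fun i => x (e i), ?_, ?_, ?_⟩
  · intro h0
    apply hx0
    funext u
    have := congrFun h0 (e.symm u)
    simpa using this
  · rw [← hxs]
    exact Equiv.sum_comp e x
  · intro i
    have := hx (e i)
    rw [← this]
    exact Equiv.sum_comp e (fun u => w (e i) u * (x (e i) - x u))

lemma EigR.smul {V : Type*} [Fintype V] {w : V → V → ℝ} {μ : ℝ}
    (h : EigR w μ) (s : ℝ) : EigR (fun i j => s * w i j) (s * μ) := by
  obtain ⟨x, hx0, hxs, hx⟩ := h
  refine ⟨x, hx0, hxs, fun i => ?_⟩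
  have := hx i
  rw [mul_assoc, ← this, Finset.mul_sum]
  exact Finset.sum_congr rfl fun j _ => by ring

variable {α β : Type*}

/-- The weight on a disjoint union with constant cross weight `c`. -/
def joinW (wA : α → α → ℝ) (wB : β → β → ℝ) (c : ℝ) : α ⊕ β → α ⊕ β → ℝ
  | .inl a, .inl a' => wA a a'
  | .inr b, .inr b' => wB b b'
  | .inl _, .inr _ => c
  | .inr _, .inl _ => c

lemma joinW_symm {wA : α → α → ℝ} {wB : β → β → ℝ} {c : ℝ}
    (hA : ∀ i j, wA i j = wA j i) (hB : ∀ i j, wB i j = wB j i) (i j : α ⊕ β) :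
    joinW wA wB c i j = joinW wA wB c j i := by
  rcases i with a | b <;> rcases j with a' | b'
  · exact hA a a'
  · rfl
  · rfl
  · exact hB b b'

lemma joinW_nonneg {wA : α → α → ℝ} {wB : β → β → ℝ} {c : ℝ}
    (hA : ∀ i j, 0 ≤ wA i j) (hB : ∀ i j, 0 ≤ wB i j) (hc : 0 ≤ c) (i j : α ⊕ β) :
    0 ≤ joinW wA wB c i j := by
  rcases i with a | b <;> rcases j with a' | b' <;> simp [joinW, hA, hB, hc]

variable [Fintype α] [Fintype β]

lemma EigR.join_left {wA : α → α → ℝ} {μ : ℝ} (h : EigR wA μ) (wB : β → β → ℝ) (c : ℝ) :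
    EigR (joinW wA wB c) (μ + c * Fintype.card β) := by
  obtain ⟨x, hx0, hxs, hx⟩ := h
  refine ⟨Sum.elim x (fun _ => 0), ?_, ?_, ?_⟩
  · intro h0
    apply hx0
    funext a
    exact congrFun h0 (Sum.inl a)
  · simp [hxs]
  · rintro (a | b)
    · simp only [Fintype.sum_sum_type, Sum.elim_inl, Sum.elim_inr, joinW, hx a]
      simp
      ring
    · simp only [Fintype.sum_sum_type, Sum.elim_inl, Sum.elim_inr, joinW]
      simp [← Finset.mul_sum, hxs]

lemma EigR.join_right {wB : β → β → ℝ} {μ : ℝ} (h : EigR wB μ) (wA : α → α → ℝ) (c : ℝ) :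
    EigR (joinW wA wB c) (μ + c * Fintype.card α) := by
  obtain ⟨x, hx0, hxs, hx⟩ := h
  refine ⟨Sum.elim (fun _ => 0) x, ?_, ?_, ?_⟩
  · intro h0
    apply hx0
    funext a
    exact congrFun h0 (Sum.inr a)
  · simp [hxs]
  · rintro (a | b)
    · simp only [Fintype.sum_sum_type, Sum.elim_inl, Sum.elim_inr, joinW]
      simp [← Finset.mul_sum, hxs]
    · simp only [Fintype.sum_sum_type, Sum.elim_inl, Sum.elim_inr, joinW, hx b]
      simp
      ring

lemma EigR.join_mid [Nonempty α] (wA : α → α → ℝ) (wB : β → β → ℝ) [Nonempty β] (c : ℝ) :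
    EigR (joinW wA wB c) (c * (Fintype.card α + Fintype.card β)) := by
  refine ⟨Sum.elim (fun _ => (Fintype.card β : ℝ)) (fun _ => -(Fintype.card α : ℝ)), ?_, ?_, ?_⟩
  · intro h0
    have := congrFun h0 (Sum.inl (Classical.arbitrary α))
    simp at this
  · simp
    ring
  · rintro (a | b)
    · simp only [Fintype.sum_sum_type, Sum.elim_inl, Sum.elim_inr, joinW]
      simp
      ring
    · simp only [Fintype.sum_sum_type, Sum.elim_inl, Sum.elim_inr, joinW]
      simp
      ring

/-- The complete graph realizes every finite set of positive reals of the right size. -/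
lemma complete_real : ∀ (q : ℕ) (s : Finset ℝ), s.card = q → (∀ μ ∈ s, 0 < μ) →
    ∃ w : Fin (q + 1) → Fin (q + 1) → ℝ, (∀ i j, w i j = w j i) ∧ (∀ i j, 0 ≤ w i j) ∧
      ∀ μ ∈ s, EigR w μ := by
  intro q
  induction q with
  | zero =>
    intro s hs _
    rw [Finset.card_eq_zero] at hs
    subst hs
    exact ⟨fun _ _ => 0, fun _ _ => rfl, fun _ _ => le_rfl, fun μ hμ => by simp at hμ⟩
  | succ q ih =>
    intro s hs hpos
    have hne : s.Nonempty := by
      rw [← Finset.card_pos, hs]; omega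
    set v := s.min' hne with hv
    have hvs : v ∈ s := s.min'_mem hne
    have hvpos : 0 < v := hpos v hvs
    set c : ℝ := v / (q + 2) with hc
    have hcpos : 0 < c := by positivity
    have hcv : c < v := by
      rw [hc, div_lt_iff₀ (by positivity)]
      nlinarith [hvpos, (Nat.cast_nonneg q : (0 : ℝ) ≤ q)]
    set s' : Finset ℝ := (s.erase v).image (fun x => x - c) with hs'
    have hcard : s'.card = q := by
      rw [hs', Finset.card_image_of_injective _ (sub_left_injective), Finset.card_erase_of_mem hvs,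
        hs]
      omega
    have hpos' : ∀ μ ∈ s', 0 < μ := by
      intro μ hμ
      rw [hs', Finset.mem_image] at hμ
      obtain ⟨x, hx, rfl⟩ := hμ
      have : v ≤ x := s.min'_le x (Finset.mem_of_mem_erase hx)
      linarith
    obtain ⟨w, hsym, hnn, hw⟩ := ih s' hcard hpos'
    set W : Fin (q + 1) ⊕ Fin 1 → Fin (q + 1) ⊕ Fin 1 → ℝ := joinW w (fun _ _ => 0) c with hW
    let e : Fin (q + 1 + 1) ≃ Fin (q + 1) ⊕ Fin 1 := finSumFinEquiv.symm
    refine ⟨fun i j => W (e i) (e j), fun i j => ?_, fun i j => ?_, ?_⟩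
    · exact joinW_symm hsym (fun _ _ => rfl) _ _
    · exact joinW_nonneg hnn (fun _ _ => le_rfl) hcpos.le _ _
    · intro μ hμ
      apply EigR.comp_equiv (w := W)
      by_cases h : μ = v
      · have := EigR.join_mid (α := Fin (q + 1)) (β := Fin 1) w (fun _ _ => 0) c
        rw [hW]
        have h2 : μ = c * ((Fintype.card (Fin (q + 1)) : ℝ) + (Fintype.card (Fin 1) : ℝ)) := by
          rw [h, hc]
          simp
          field_simp
          ring
        rw [h2]
        exact this
      · have hmem : μ - c ∈ s' := by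
          rw [hs', Finset.mem_image]
          exact ⟨μ, Finset.mem_erase.mpr ⟨h, hμ⟩, rfl⟩
        have := (hw _ hmem).join_left (β := Fin 1) (fun _ _ => 0) c
        simpa using this

/-- The star with leaf weights `w`. -/
def starW {k : ℕ} (w : Fin k → ℝ) : Fin k ⊕ Fin 1 → Fin k ⊕ Fin 1 → ℝ
  | .inl _, .inl _ => 0
  | .inl i, .inr _ => w i
  | .inr _, .inl i => w i
  | .inr _, .inr _ => 0

lemma starW_symm {k : ℕ} (w : Fin k → ℝ) (i j) : starW w i j = starW w j i := by
  rcases i with a | b <;> rcases j with a' | b' <;> simp [starW]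

lemma starW_nonneg {k : ℕ} {w : Fin k → ℝ} (hw : ∀ i, 0 ≤ w i) (i j) : 0 ≤ starW w i j := by
  rcases i with a | b <;> rcases j with a' | b' <;> simp [starW, hw]

lemma star_eig {k : ℕ} (w : Fin k → ℝ) (μ : ℝ) (hne : ∀ i, μ - w i ≠ 0)
    (h : ∑ i, w i / (μ - w i) = 1) : EigR (starW w) μ := by
  refine ⟨Sum.elim (fun i => -(w i / (μ - w i))) (fun _ => 1), ?_, ?_, ?_⟩
  · intro h0
    have := congrFun h0 (Sum.inr 0)
    simp at this
  · simp [h]
  · rintro (a | b)
    · simp only [Fintype.sum_sum_type, Sum.elim_inl, Sum.elim_inr, starW]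
      have := hne a
      simp
      field_simp
      ring
    · simp only [Fintype.sum_sum_type, Sum.elim_inl, Sum.elim_inr, starW]
      simp
      have h1 : ∀ i, w i * (1 + w i / (μ - w i)) = μ * (w i / (μ - w i)) := by
        intro i
        have := hne i
        field_simp
        ring
      simp_rw [h1]
      rw [← Finset.mul_sum, h, mul_one]

end Pool.Agent.Q170.Susp
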