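import Pool.Agent.Q170.Susp.Star

open Finset Polynomial Filter Topology

namespace Pool.Agent.Q170.Susp

lemma continuous_coeff_prod {k : ℕ} (S : Finset (Fin k)) : ∀ s : ℕ,
    Continuous (fun β : Fin k → ℝ => (∏ j ∈ S, (X - C (β j))).coeff s) := by
  classical
  induction S using Finset.induction_on with
  | empty =>
    intro s
    simp only [Finset.prod_empty]
    exact continuous_const
  | insert a S ha ih =>
    intro s
    simp only [Finset.prod_insert ha, sub_mul, coeff_sub, coeff_C_mul]
    apply Continuous.sub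
    · rcases s with _ | s
      · simp only [mul_coeff_zero, coeff_X_zero, zero_mul]
        exact continuous_const
      · simp only [coeff_X_mul]
        exact ih s
    · exact (continuous_apply a).mul (ih s)

lemma continuous_eval_Sop (k : ℕ) (t : ℝ) :
    Continuous (fun β : Fin k → ℝ => (Sop k (rootPoly β)).eval t) := by
  unfold Sop
  simp only [eval_finsetSum, eval_monomial]
  apply continuous_finsetSum
  intro s _
  apply Continuous.mul _ continuous_const
  apply Continuous.div_const
  exact continuous_coeff_prod Finset.univ s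

/-- the base weights `1, 2, ..., k`. -/
noncomputable def w₀ (k : ℕ) : Fin k → ℝ := fun i => (i.val : ℝ) + 1

lemma w₀_injective (k : ℕ) : Function.Injective (w₀ k) := by
  intro i j h
  apply Fin.ext
  have : (i.val : ℝ) + 1 = (j.val : ℝ) + 1 := h
  exact_mod_cast (add_right_cancel this)

lemma sign_rootPoly_w₀ (k : ℕ) (i : Fin (k + 1)) :
    0 < (-1) ^ (k - i.val) * (rootPoly (w₀ k)).eval ((i.val : ℝ) + 1 / 2) := by
  rw [rootPoly_eval]
  have := prod_sign (k := k) univ (fun j => (i.val : ℝ) + 1 / 2 - w₀ k j) (fun j => j.val < i.val) ?_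
  · rwa [card_filter_ge i.val (by omega)] at this
  · intro j _
    unfold w₀
    split_ifs with h
    · have : (j.val : ℝ) + 1 ≤ i.val := by exact_mod_cast h
      linarith
    · have : (i.val : ℝ) ≤ j.val := by exact_mod_cast (not_lt.mp h)
      linarith

lemma sign_Top_w₀ (k : ℕ) (i : Fin k) :
    0 < (-1) ^ (k - i.val) * (Top k (rootPoly (w₀ k))).eval (w₀ k i) := by
  classical
  have h1 : (Top k (rootPoly (w₀ k))).eval (w₀ k i)
      = -(w₀ k i) * ∏ j ∈ univ.erase i, (w₀ k i - w₀ k j) := by
    rw [Top, eval_sub, eval_mul, eval_mul, eval_C, eval_X, rootPoly_derivative_eval_root,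
      rootPoly_eval, Finset.prod_eq_zero (i := i) (Finset.mem_univ _) (by simp)]
    ring
  rw [h1]
  have h2 := prod_sign (k := k) (univ.erase i) (fun j => w₀ k i - w₀ k j)
    (fun j => j.val < i.val) ?_
  · have hcard : ((univ.erase i).filter (fun j : Fin k => ¬ j.val < i.val)).card = k - (i.val + 1) := by
      rw [← card_filter_ge (k := k) (i.val + 1) (by omega)]
      congr 1
      ext j
      simp only [Finset.mem_filter, Finset.mem_erase, Finset.mem_univ, true_and, and_true]
      constructor
      · rintro ⟨h3, h4⟩ h5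
        apply h3
        apply Fin.ext
        omega
      · intro h3
        refine ⟨?_, by omega⟩
        rintro rfl
        omega
    rw [hcard] at h2
    rw [neg_one_pow_split i.isLt]
    have hw : 0 < w₀ k i := by unfold w₀; positivity
    have := mul_pos hw h2
    linarith
  · intro j hj
    have hne : j ≠ i := Finset.ne_of_mem_erase hj
    unfold w₀
    split_ifs with h
    · have : (j.val : ℝ) + 1 ≤ i.val := by exact_mod_cast h
      linarith
    · have h6 : i.val < j.val := by
        have : i.val ≠ j.val := fun h => hne (Fin.ext h.symm)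
        omega
      have : (i.val : ℝ) + 1 ≤ j.val := by exact_mod_cast h6
      linarith

/-- A base point. -/
lemma exists_base (k : ℕ) : ∃ β₀ : Fin k → ℝ, (∀ j, 0 < β₀ j) ∧
    Top k (rootPoly (w₀ k)) = rootPoly β₀ := by
  obtain ⟨hm, hd⟩ := monic_Top k (rootPoly (w₀ k)) (rootPoly_monic _) (rootPoly_natDegree _)
  rcases Nat.eq_zero_or_pos k with rfl | hk
  · refine ⟨Fin.elim0, fun j => j.elim0, ?_⟩
    have h1 := hm.natDegree_eq_zero.mp hd
    rw [h1, rootPoly]
    simp
  · have htend : Tendsto (fun x => (Top k (rootPoly (w₀ k))).eval x) atTop atTop := by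
      apply tendsto_atTop_of_leadingCoeff_nonneg
      · rw [← natDegree_pos_iff_degree_pos, hd]
        exact hk
      · rw [hm.leadingCoeff]
        exact zero_le_one
    obtain ⟨M, hM, hM2⟩ := ((htend.eventually (eventually_gt_atTop 0)).and
      (eventually_gt_atTop ((k : ℝ) + 1))).exists
    set t : Fin (k + 1) → ℝ := Fin.snoc (w₀ k) M with ht
    have hmono : StrictMono t := by
      rw [Fin.strictMono_iff_lt_succ]
      intro i
      by_cases hi : i.val + 1 < k
      · have h1 : i.succ = (⟨i.val + 1, hi⟩ : Fin k).castSucc := by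
          apply Fin.ext
          simp
        rw [h1, ht, Fin.snoc_castSucc, Fin.snoc_castSucc]
        unfold w₀
        push_cast
        linarith
      · have h1 : i.succ = Fin.last k := by
          apply Fin.ext
          have := i.isLt
          simp
          omega
        rw [h1, ht, Fin.snoc_castSucc, Fin.snoc_last]
        unfold w₀
        have : (i.val : ℝ) < k := by exact_mod_cast i.isLt
        linarith
    obtain ⟨r, hr, hp⟩ := roots_of_signs (Top k (rootPoly (w₀ k))) hm hd t hmono (by
      intro i
      refine Fin.lastCases ?_ (fun i => ?_) i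
      · rw [ht, Fin.snoc_last]
        simp [hM]
      · rw [ht, Fin.snoc_castSucc]
        exact sign_Top_w₀ k i)
    refine ⟨r, fun j => ?_, hp⟩
    have h1 := (hr j).1
    rw [ht, Fin.snoc_castSucc] at h1
    have : 0 < w₀ k j := by unfold w₀; positivity
    linarith

/-- The set of nonzero spectra of the star contains an open set. -/
theorem star_open (k : ℕ) : ∃ β₀ : Fin k → ℝ, (∀ j, 0 < β₀ j) ∧ ∃ ε > 0,
    ∀ β : Fin k → ℝ, (∀ j, |β j - β₀ j| < ε) → StarReal β := by
  obtain ⟨β₀, hpos, hβ₀⟩ := exists_base k
  have hS : Sop k (rootPoly β₀) = rootPoly (w₀ k) := by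
    rw [← hβ₀]
    exact Sop_Top k _ (rootPoly_natDegree _).le
  have hev : ∀ i : Fin (k + 1), ∀ᶠ β in 𝓝 β₀,
      0 < (-1) ^ (k - i.val) * (Sop k (rootPoly β)).eval ((i.val : ℝ) + 1 / 2) := by
    intro i
    have hc : Continuous (fun β : Fin k → ℝ =>
        (-1 : ℝ) ^ (k - i.val) * (Sop k (rootPoly β)).eval ((i.val : ℝ) + 1 / 2)) :=
      continuous_const.mul (continuous_eval_Sop k _)
    have h1 := sign_rootPoly_w₀ k i
    rw [← hS] at h1
    exact hc.continuousAt.eventually (lt_mem_nhds h1)
  have hev' : ∀ᶠ β in 𝓝 β₀, ∀ i : Fin (k + 1),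
      0 < (-1) ^ (k - i.val) * (Sop k (rootPoly β)).eval ((i.val : ℝ) + 1 / 2) :=
    Filter.eventually_all.mpr hev
  rw [Metric.eventually_nhds_iff] at hev'
  obtain ⟨ε, hε, h⟩ := hev'
  refine ⟨β₀, hpos, ε, hε, fun β hβ => ?_⟩
  have h1 := h (y := β) (by
    rw [dist_pi_lt_iff hε]
    intro j
    rw [Real.dist_eq]
    exact hβ j)
  obtain ⟨hm, hd⟩ := monic_Sop k (rootPoly β) (rootPoly_monic _) (rootPoly_natDegree _)
  set t : Fin (k + 1) → ℝ := fun i => (i.val : ℝ) + 1 / 2 with ht
  have hmono : StrictMono t := by
    intro i j hij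
    have : (i.val : ℝ) < j.val := by exact_mod_cast hij
    simp only [ht]
    linarith
  obtain ⟨r, hr, hp⟩ := roots_of_signs (Sop k (rootPoly β)) hm hd t hmono h1
  have hmono' : StrictMono r := by
    intro i j hij
    calc r i < t i.succ := (hr i).2
      _ ≤ t j.castSucc := hmono.monotone (by
          rw [Fin.le_iff_val_le_val, Fin.val_succ, Fin.val_castSucc]; exact hij)
      _ < r j := (hr j).1
  apply starReal_of_rootPoly β r _ hmono'.injective
  · have h2 : rootPoly r = Sop k (rootPoly β) := hp.symm
    rw [h2, Top_Sop k _ (rootPoly_natDegree _).le]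
  · intro i
    have h2 := (hr i).1
    have h3 : 0 < t i.castSucc := by simp only [ht]; positivity
    linarith

end Pool.Agent.Q170.Susp
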