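import Pool.Agent.Q170.Susp.Expo
import Pool.Agent.Q170.Susp.Chart
import Pool.Agent.Q170.Susp.StarOpen
import Pool.Agent.Q170.Susp.Graph

open MeasureTheory Finset Set Filter Topology
open scoped ENNReal MeasureTheory

namespace Pool.Agent.Q170.Susp

/-- Tuples without a block in `V`. -/
def bad {m : ℕ} (V : Set (Fin m → ℝ)) (ι : Type*) : Set (ι → ℝ) :=
  {x | ∀ σ : Fin m ↪ ι, (fun j => x (σ j)) ∉ V}

lemma measurableSet_bad {m : ℕ} {V : Set (Fin m → ℝ)} (hV : IsOpen V) (ι : Type*) [Fintype ι] :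
    MeasurableSet (bad V ι) := by
  have h : bad V ι = ⋂ σ : Fin m ↪ ι, (fun x : ι → ℝ => (fun j => x (σ j))) ⁻¹' Vᶜ := by
    ext x
    simp [bad]
  rw [h]
  apply IsClosed.measurableSet
  apply isClosed_iInter
  intro σ
  apply IsClosed.preimage _ hV.isClosed_compl
  fun_prop

lemma bad_cone {m : ℕ} {V : Set (Fin m → ℝ)} (hcone : ∀ x ∈ V, ∀ t : ℝ, 0 < t → t • x ∈ V)
    (ι : Type*) : ∀ x ∈ bad V ι, ∀ t : ℝ, 0 < t → t • x ∈ bad V ι := by
  intro x hx t ht σ h
  apply hx σ
  have := hcone _ h t⁻¹ (inv_pos.mpr ht)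
  have h2 : (t⁻¹ • fun j => (t • x) (σ j)) = fun j => x (σ j) := by
    funext j
    simp only [Pi.smul_apply, smul_eq_mul]
    rw [inv_mul_cancel_left₀ ht.ne']
  rwa [h2] at this

lemma nu_univ_add (d m : ℕ) : nu (univ : Set (Fin (d + m) → ℝ)) =
    nu (univ : Set (Fin d → ℝ)) * nu (univ : Set (Fin m → ℝ)) := by
  rw [← nu_sum univ univ MeasurableSet.univ MeasurableSet.univ]
  rw [← nu_reindex finSumFinEquiv]
  · congr 1
    ext x
    simp
  · simp

lemma nu_bad_step {m : ℕ} {V : Set (Fin m → ℝ)} (hV : IsOpen V) (d : ℕ) :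
    nu (bad V (Fin (d + m))) ≤ nu (bad V (Fin d)) * nu Vᶜ := by
  rw [← nu_sum _ _ (measurableSet_bad hV (Fin d)) hV.measurableSet.compl]
  have hm : MeasurableSet {x : Fin d ⊕ Fin m → ℝ | (fun i => x (Sum.inl i)) ∈ bad V (Fin d) ∧
      (fun i => x (Sum.inr i)) ∈ Vᶜ} := by
    have h1 : Measurable (fun x : Fin d ⊕ Fin m → ℝ => fun i : Fin d => x (Sum.inl i)) := by
      fun_prop
    have h2 : Measurable (fun x : Fin d ⊕ Fin m → ℝ => fun i : Fin m => x (Sum.inr i)) := by
      fun_prop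
    exact (h1 (measurableSet_bad hV (Fin d))).inter (h2 hV.measurableSet.compl)
  rw [← nu_reindex finSumFinEquiv _ hm]
  apply nu_mono
  intro x hx
  refine ⟨fun σ => ?_, ?_⟩
  · exact hx (σ.trans ((Function.Embedding.inl).trans finSumFinEquiv.toEmbedding))
  · exact hx ((Function.Embedding.inr).trans finSumFinEquiv.toEmbedding)

/-- The failure probability of one block. -/
noncomputable def theta {m : ℕ} (V : Set (Fin m → ℝ)) : ℝ≥0∞ :=
  nu Vᶜ / nu (univ : Set (Fin m → ℝ))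

lemma theta_mul {m : ℕ} (V : Set (Fin m → ℝ)) :
    theta V * nu (univ : Set (Fin m → ℝ)) = nu Vᶜ := by
  unfold theta
  rw [ENNReal.div_mul_cancel nu_univ_ne_zero nu_univ_ne_top]

lemma nu_bad_le {m : ℕ} {V : Set (Fin m → ℝ)} (hV : IsOpen V) (J : ℕ) : ∀ d, m * J ≤ d →
    nu (bad V (Fin d)) ≤ theta V ^ J * nu (univ : Set (Fin d → ℝ)) := by
  induction J with
  | zero =>
    intro d _
    rw [pow_zero, one_mul]
    exact nu_mono (subset_univ _)
  | succ J ih =>
    intro d hd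
    rw [Nat.mul_succ] at hd
    obtain ⟨d', rfl⟩ : ∃ d', d = d' + m := ⟨d - m, by omega⟩
    calc nu (bad V (Fin (d' + m))) ≤ nu (bad V (Fin d')) * nu Vᶜ := nu_bad_step hV d'
      _ ≤ (theta V ^ J * nu (univ : Set (Fin d' → ℝ))) * nu Vᶜ := by
          gcongr
          exact ih d' (by omega)
      _ = theta V ^ (J + 1) * nu (univ : Set (Fin (d' + m) → ℝ)) := by
          rw [← theta_mul V, nu_univ_add, pow_succ]
          ring

lemma volume_bad_le {m : ℕ} {V : Set (Fin m → ℝ)} (hV : IsOpen V)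
    (hcone : ∀ x ∈ V, ∀ t : ℝ, 0 < t → t • x ∈ V) (J d : ℕ) (h : m * J ≤ d) :
    volume (bad V (Fin d) ∩ tri (Fin d)) ≤ theta V ^ J * volume (tri (Fin d)) := by
  have h1 := nu_bad_le hV J d h
  rw [nu_eq _ (bad_cone hcone _), nu_univ] at h1
  have h2 : theta V ^ J * (gconst (Fintype.card (Fin d)) * volume (tri (Fin d))) =
      gconst (Fintype.card (Fin d)) * (theta V ^ J * volume (tri (Fin d))) := by ring
  rw [h2] at h1
  exact (ENNReal.mul_le_mul_iff_right (gconst_ne_zero _) (gconst_ne_top _)).mp h1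

lemma theta_lt_one {m : ℕ} {V : Set (Fin m → ℝ)} (hV : IsOpen V)
    (hcone : ∀ x ∈ V, ∀ t : ℝ, 0 < t → t • x ∈ V) (x₀ : Fin m → ℝ) (hx₀ : x₀ ∈ V)
    (hpos : ∀ i, 0 < x₀ i) : theta V < 1 := by
  have h1 : nu V + nu Vᶜ = nu (univ : Set (Fin m → ℝ)) := by
    unfold nu
    rw [lintegral_add_compl _ hV.measurableSet, Measure.restrict_univ]
  have h2 : nu V ≠ 0 := by
    rw [nu_eq _ hcone]
    exact mul_ne_zero (gconst_ne_zero _) (volume_inter_tri_pos V hV hcone x₀ hx₀ hpos).ne'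
  have h3 : nu Vᶜ ≠ ∞ := by
    intro h
    rw [h, add_top] at h1
    exact nu_univ_ne_top h1.symm
  unfold theta
  rw [ENNReal.div_lt_iff (Or.inl nu_univ_ne_zero) (Or.inl nu_univ_ne_top), one_mul, ← h1]
  rw [add_comm]
  exact ENNReal.lt_add_right h3 h2

/-- A hyperplane is null. -/
lemma volume_hyperplane {d : ℕ} (f : (Fin d → ℝ) →ₗ[ℝ] ℝ) (hf : f ≠ 0) (b : ℝ) :
    volume {x | f x = b} = 0 := by
  obtain ⟨v, hv⟩ : ∃ v, f v ≠ 0 := by
    by_contra h
    push Not at h
    exact hf (LinearMap.ext h)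
  set x₀ : Fin d → ℝ := (b / f v) • v with hx₀
  have hb : f x₀ = b := by
    rw [hx₀, map_smul, smul_eq_mul, div_mul_cancel₀ _ hv]
  have h1 : {x | f x = b} = (fun x => x + -x₀) ⁻¹' (f.ker : Set (Fin d → ℝ)) := by
    ext x
    simp only [Set.mem_ofPred_eq, Set.mem_preimage, SetLike.mem_coe, LinearMap.mem_ker, map_add,
      map_neg, hb]
    constructor
    · intro h; linarith
    · intro h; linarith
  rw [h1, measure_preimage_add_right]
  apply Measure.addHaar_submodule
  intro h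
  apply hv
  have : v ∈ f.ker := by rw [h]; trivial
  exact this

/-- The exceptional set: a zero or a coincidence among the coordinates. -/
def excep (d : ℕ) : Set (Fin d → ℝ) :=
  {x | ¬ (Function.Injective (Fin.cons (1 - ∑ i, x i) x : Fin (d + 1) → ℝ) ∧
    ∀ i, (Fin.cons (1 - ∑ i, x i) x : Fin (d + 1) → ℝ) i ≠ 0)}

lemma volume_excep (d : ℕ) : volume (excep d) = 0 := by
  classical
  have hsub : excep d ⊆ ((⋃ i : Fin d, ⋃ j : Fin d, {x | i ≠ j ∧ x i = x j}) ∪
      (⋃ i : Fin d, {x | x i + ∑ j, x j = 1})) ∪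
      ((⋃ i : Fin d, {x | x i = 0}) ∪ {x | ∑ j, x j = 1}) := by
    intro x hx
    by_contra hcon
    apply hx
    simp only [Set.mem_union, Set.mem_iUnion, Set.mem_ofPred_eq, not_or, not_exists, not_and] at hcon
    obtain ⟨⟨h1, h2⟩, h3, h4⟩ := hcon
    refine ⟨?_, ?_⟩
    · rw [Fin.cons_injective_iff]
      refine ⟨?_, ?_⟩
      · rintro ⟨i, hi⟩
        exact h2 i (by linarith)
      · intro i j hij
        by_contra hne
        exact h1 i j hne hij
    · intro i
      refine Fin.cases ?_ (fun i => ?_) i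
      · rw [Fin.cons_zero]
        intro h
        exact h4 (by linarith)
      · rw [Fin.cons_succ]
        exact h3 i
  refine measure_mono_null hsub ?_
  rw [measure_union_null_iff, measure_union_null_iff, measure_union_null_iff]
  refine ⟨⟨?_, ?_⟩, ?_, ?_⟩
  · rw [measure_iUnion_null_iff]
    intro i
    rw [measure_iUnion_null_iff]
    intro j
    by_cases hij : i = j
    · have : {x : Fin d → ℝ | i ≠ j ∧ x i = x j} = ∅ := by
        ext x
        simp [hij]
      rw [this, measure_empty]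
    · refine measure_mono_null ?_ (volume_hyperplane
        ((LinearMap.proj i : (Fin d → ℝ) →ₗ[ℝ] ℝ) - LinearMap.proj j) ?_ 0)
      · rintro x ⟨_, hx⟩
        simp only [Set.mem_ofPred_eq, LinearMap.sub_apply, LinearMap.proj_apply]
        linarith
      · intro h
        have := congrArg (fun g => g (Pi.single i 1)) h
        simp [LinearMap.sub_apply, hij] at this
  · rw [measure_iUnion_null_iff]
    intro i
    refine measure_mono_null ?_ (volume_hyperplane
        ((LinearMap.proj i : (Fin d → ℝ) →ₗ[ℝ] ℝ) + ∑ j, LinearMap.proj j) ?_ 1)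
    · intro x hx
      simp only [Set.mem_ofPred_eq] at hx
      simp only [Set.mem_ofPred_eq, LinearMap.add_apply, LinearMap.proj_apply,
        LinearMap.sum_apply]
      exact hx
    · intro h
      have := congrArg (fun g => g (Pi.single i 1)) h
      simp [LinearMap.add_apply, LinearMap.sum_apply] at this
  · rw [measure_iUnion_null_iff]
    intro i
    refine measure_mono_null ?_ (volume_hyperplane
        (LinearMap.proj i : (Fin d → ℝ) →ₗ[ℝ] ℝ) ?_ 0)
    · intro x hx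
      exact hx
    · intro h
      have := congrArg (fun g => g (Pi.single i 1)) h
      simp at this
  · rcases Nat.eq_zero_or_pos d with rfl | hd
    · have : {x : Fin 0 → ℝ | ∑ j, x j = 1} = ∅ := by
        ext x
        simp
      rw [this, measure_empty]
    · refine measure_mono_null ?_ (volume_hyperplane
        (∑ j, (LinearMap.proj j : (Fin d → ℝ) →ₗ[ℝ] ℝ)) ?_ 1)
      · intro x hx
        simp only [Set.mem_ofPred_eq] at hx
        simp only [Set.mem_ofPred_eq, LinearMap.proj_apply, LinearMap.sum_apply]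
        exact hx
      · intro h
        have := congrArg (fun g => g (Pi.single (⟨0, hd⟩ : Fin d) 1)) h
        simp [LinearMap.sum_apply] at this


/-- The cone of good blocks. -/
def coneV {k : ℕ} (β₀ : Fin k → ℝ) (ε : ℝ) : Set (Fin (k + 1) → ℝ) :=
  {y | ∃ s : ℝ, 0 < s ∧ 0 < y 0 ∧ y 0 < ε * s ∧ ∀ j : Fin k, |y j.succ - s * β₀ j| < ε * s}

lemma isOpen_coneV {k : ℕ} (β₀ : Fin k → ℝ) (ε : ℝ) : IsOpen (coneV β₀ ε) := by
  have h : coneV β₀ ε = ⋃ s : ℝ, {y : Fin (k + 1) → ℝ | 0 < s ∧ 0 < y 0 ∧ y 0 < ε * s ∧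
      ∀ j : Fin k, |y j.succ - s * β₀ j| < ε * s} := by
    ext y
    simp [coneV]
  rw [h]
  apply isOpen_iUnion
  intro s
  by_cases hs : 0 < s
  · have h2 : {y : Fin (k + 1) → ℝ | 0 < s ∧ 0 < y 0 ∧ y 0 < ε * s ∧
        ∀ j : Fin k, |y j.succ - s * β₀ j| < ε * s} =
        ({y | 0 < y 0} ∩ {y | y 0 < ε * s}) ∩
          ⋂ j : Fin k, {y : Fin (k + 1) → ℝ | |y j.succ - s * β₀ j| < ε * s} := by
      ext y
      simp [hs]
      tauto
    rw [h2]
    apply IsOpen.inter
    · exact (isOpen_lt continuous_const (continuous_apply 0)).inter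
        (isOpen_lt (continuous_apply 0) continuous_const)
    · exact isOpen_iInter_of_finite fun j => isOpen_lt (by fun_prop) continuous_const
  · have h2 : {y : Fin (k + 1) → ℝ | 0 < s ∧ 0 < y 0 ∧ y 0 < ε * s ∧
        ∀ j : Fin k, |y j.succ - s * β₀ j| < ε * s} = ∅ := by
      ext y
      simp [hs]
    rw [h2]
    exact isOpen_empty

lemma coneV_cone {k : ℕ} (β₀ : Fin k → ℝ) (ε : ℝ) :
    ∀ x ∈ coneV β₀ ε, ∀ t : ℝ, 0 < t → t • x ∈ coneV β₀ ε := by
  rintro x ⟨s, hs, h1, h2, h3⟩ t ht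
  refine ⟨t * s, mul_pos ht hs, ?_, ?_, fun j => ?_⟩
  · simp only [Pi.smul_apply, smul_eq_mul]
    positivity
  · simp only [Pi.smul_apply, smul_eq_mul]
    nlinarith
  · simp only [Pi.smul_apply, smul_eq_mul]
    have h4 : t * x j.succ - t * s * β₀ j = t * (x j.succ - s * β₀ j) := by ring
    rw [h4, abs_mul, abs_of_pos ht]
    nlinarith [h3 j]

/-- The deterministic heart: a good block makes the tuple realizable. -/
lemma realizable_of_coneV {k q : ℕ} (G : SimpleGraph (Fin (k + q + 2)))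
    (hG : AlmostComplete k G) (β₀ : Fin k → ℝ) (ε₀ ε : ℝ) (hε₀ : 2 * ε ≤ ε₀)
    (hεβ : ∀ j, 2 * ε ≤ β₀ j)
    (hstar : ∀ β : Fin k → ℝ, (∀ j, |β j - β₀ j| < ε₀) → StarReal β)
    (lam : Fin (k + q + 1) → ℝ) (hinj : Function.Injective lam)
    (hpos : ∀ i, 0 < lam i) (σ : Fin (k + 1) ↪ Fin (k + q + 1))
    (hσ : (fun j => lam (σ j)) ∈ coneV β₀ ε) : Realizable (N := k + q + 2) G lam := by
  classical
  obtain ⟨s, hs, h1, h2, h3⟩ := hσ
  obtain ⟨i₀, hi₀⟩ := Finite.exists_min lam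
  set v := lam i₀ with hv
  have hvpos : 0 < v := hpos i₀
  have hvs : v < ε * s := lt_of_le_of_lt (hi₀ (σ 0)) h2
  have hk : (0 : ℝ) ≤ k := Nat.cast_nonneg k
  have hq : (0 : ℝ) ≤ q := Nat.cast_nonneg q
  have hden : (0 : ℝ) < k + q + 2 := by positivity
  set u : ℝ := v / (k + q + 2) * (q + 1) with hu
  have hu0 : 0 ≤ u := by positivity
  have huv : u ≤ v := by
    rw [hu, div_mul_eq_mul_div, div_le_iff₀ hden]
    nlinarith
  have hβ : StarReal (fun j : Fin k => lam (σ j.succ) - u) := by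
    have h4 : StarReal (fun j : Fin k => s⁻¹ * (lam (σ j.succ) - u)) := by
      apply hstar
      intro j
      have h5 : s⁻¹ * (lam (σ j.succ) - u) - β₀ j = s⁻¹ * ((lam (σ j.succ) - s * β₀ j) - u) := by
        field_simp
        ring
      rw [h5, abs_mul, abs_of_pos (inv_pos.mpr hs), inv_mul_lt_iff₀ hs]
      have h6 := h3 j
      calc |(lam (σ j.succ) - s * β₀ j) - u| ≤ |lam (σ j.succ) - s * β₀ j| + |u| := abs_sub _ _
        _ < ε * s + ε * s := by
            rw [abs_of_nonneg hu0]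
            exact add_lt_add h6 (lt_of_le_of_lt huv hvs)
        _ ≤ s * ε₀ := by nlinarith
    have h7 := h4.smul hs.le
    have h8 : (fun j : Fin k => s * (s⁻¹ * (lam (σ j.succ) - u))) =
        fun j : Fin k => lam (σ j.succ) - u := by
      funext j
      rw [mul_inv_cancel_left₀ hs.ne']
    rwa [h8] at h7
  obtain ⟨w, hw, hE⟩ := hβ
  have hne : ∀ j : Fin k, ((Fin.succEmb k).trans σ) j ≠ i₀ := by
    intro j hj
    have h6 := h3 j
    rw [abs_lt] at h6
    have h7 : lam (σ j.succ) = v := by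
      rw [hv, ← hj]
      rfl
    have h8 := hεβ j
    nlinarith [h6.1]
  exact realizable_of_block G hG lam hinj hpos ((Fin.succEmb k).trans σ) i₀ hi₀ hne w hw hE

end Pool.Agent.Q170.Susp
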