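import Pool.Agent.Q170.Susp.Linear

open Finset Polynomial

namespace Pool.Agent.Q170.Susp

lemma neg_one_pow_split {m i : ℕ} (h : i < m) : (-1 : ℝ) ^ (m - i) = -(-1) ^ (m - (i + 1)) := by
  have : m - i = (m - (i + 1)) + 1 := by omega
  rw [this, pow_succ]
  ring

/-- A monic polynomial of degree `k` with `k` sign changes splits with interlacing roots. -/
lemma roots_of_signs {k : ℕ} (p : ℝ[X]) (hm : p.Monic) (hd : p.natDegree = k)
    (t : Fin (k + 1) → ℝ) (ht : StrictMono t)
    (hs : ∀ i : Fin (k + 1), 0 < (-1) ^ (k - i.val) * p.eval (t i)) :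
    ∃ r : Fin k → ℝ, (∀ i : Fin k, t i.castSucc < r i ∧ r i < t i.succ) ∧
      p = ∏ i, (X - C (r i)) := by
  have hex : ∀ i : Fin k, ∃ r, (t i.castSucc < r ∧ r < t i.succ) ∧ p.eval r = 0 := by
    intro i
    have hlt : t i.castSucc < t i.succ := ht (Fin.castSucc_lt_succ)
    set g : ℝ → ℝ := fun x => (-1) ^ (k - i.val) * p.eval x with hg
    have hcont : ContinuousOn g (Set.Icc (t i.castSucc) (t i.succ)) := by
      apply Continuous.continuousOn
      exact continuous_const.mul p.continuous
    have h1 : 0 < g (t i.castSucc) := by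
      have := hs i.castSucc
      simpa [hg] using this
    have h2 : g (t i.succ) < 0 := by
      have := hs i.succ
      rw [Fin.val_succ] at this
      rw [hg]
      simp only
      rw [neg_one_pow_split i.isLt]
      linarith
    have := intermediate_value_Ioo' hlt.le hcont
    obtain ⟨r, hr, hr0⟩ := this (show (0 : ℝ) ∈ Set.Ioo (g (t i.succ)) (g (t i.castSucc)) from ⟨h2, h1⟩)
    refine ⟨r, ⟨hr.1, hr.2⟩, ?_⟩
    simpa [hg] using hr0
  choose r hr hr0 using hex
  have hmono : StrictMono r := by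
    intro i j hij
    calc r i < t i.succ := (hr i).2
      _ ≤ t j.castSucc := ht.monotone (by
          rw [Fin.le_iff_val_le_val, Fin.val_succ, Fin.val_castSucc]; exact hij)
      _ < r j := (hr j).1
  refine ⟨r, hr, ?_⟩
  have hne : p ≠ 0 := hm.ne_zero
  have hnodup : (Multiset.map r Finset.univ.val).Nodup := Finset.univ.nodup.map hmono.injective
  have hle : Multiset.map r Finset.univ.val ≤ p.roots := by
    rw [Multiset.le_iff_subset hnodup]
    intro a ha
    rw [Multiset.mem_map] at ha
    obtain ⟨i, _, rfl⟩ := ha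
    rw [Polynomial.mem_roots hne]
    exact hr0 i
  have heq : Multiset.map r Finset.univ.val = p.roots := by
    apply Multiset.eq_of_le_of_card_le hle
    calc p.roots.card ≤ p.natDegree := Polynomial.card_roots' _
      _ = k := hd
      _ = _ := by simp
  have h3 := prod_multiset_X_sub_C_of_monic_of_roots_card_eq hm (by rw [← heq, hd]; simp)
  rw [← h3, ← heq, Multiset.map_map]
  rfl

/-- The operator `W ↦ (k+1) W - X W'`. -/
noncomputable def Top (k : ℕ) (W : ℝ[X]) : ℝ[X] := C ((k : ℝ) + 1) * W - X * derivative W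

lemma coeff_Top (k : ℕ) (W : ℝ[X]) (s : ℕ) :
    (Top k W).coeff s = ((k : ℝ) + 1 - s) * W.coeff s := by
  rw [Top, coeff_sub, coeff_C_mul]
  rcases s with _ | s
  · simp
  · rw [coeff_X_mul, coeff_derivative]
    push_cast
    ring

/-- The inverse operator. -/
noncomputable def Sop (k : ℕ) (Λ : ℝ[X]) : ℝ[X] :=
  ∑ s ∈ range (k + 1), monomial s (Λ.coeff s / ((k : ℝ) + 1 - s))

lemma coeff_Sop (k : ℕ) (Λ : ℝ[X]) (hd : Λ.natDegree ≤ k) (s : ℕ) :
    (Sop k Λ).coeff s = Λ.coeff s / ((k : ℝ) + 1 - s) := by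
  rw [Sop, finsetSum_coeff]
  simp only [coeff_monomial]
  rw [Finset.sum_ite_eq']
  split_ifs with h
  · rfl
  · rw [Finset.mem_range] at h
    rw [Polynomial.coeff_eq_zero_of_natDegree_lt (by omega)]
    simp

lemma Top_Sop (k : ℕ) (Λ : ℝ[X]) (hd : Λ.natDegree ≤ k) : Top k (Sop k Λ) = Λ := by
  ext s
  rw [coeff_Top, coeff_Sop k Λ hd]
  by_cases hs : s ≤ k
  · have : (k : ℝ) + 1 - s ≠ 0 := by
      have : (s : ℝ) ≤ k := by exact_mod_cast hs
      intro h
      linarith
    field_simp
  · rw [Polynomial.coeff_eq_zero_of_natDegree_lt (by omega)]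
    simp

lemma Sop_Top (k : ℕ) (W : ℝ[X]) (hd : W.natDegree ≤ k) : Sop k (Top k W) = W := by
  have hd' : (Top k W).natDegree ≤ k := by
    rw [Polynomial.natDegree_le_iff_coeff_eq_zero]
    intro s hs
    rw [coeff_Top, Polynomial.coeff_eq_zero_of_natDegree_lt (by omega)]
    simp
  ext s
  rw [coeff_Sop k _ hd', coeff_Top]
  by_cases hs : s ≤ k
  · have : (k : ℝ) + 1 - s ≠ 0 := by
      have : (s : ℝ) ≤ k := by exact_mod_cast hs
      intro h
      linarith
    field_simp
  · rw [Polynomial.coeff_eq_zero_of_natDegree_lt (show W.natDegree < s by omega)]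
    simp

lemma monic_Top (k : ℕ) (W : ℝ[X]) (hm : W.Monic) (hd : W.natDegree = k) :
    (Top k W).Monic ∧ (Top k W).natDegree = k := by
  have h1 : (Top k W).natDegree ≤ k := by
    rw [Polynomial.natDegree_le_iff_coeff_eq_zero]
    intro s hs
    rw [coeff_Top, Polynomial.coeff_eq_zero_of_natDegree_lt (by omega)]
    simp
  have h2 : (Top k W).coeff k = 1 := by
    rw [coeff_Top]
    have : W.coeff k = 1 := by rw [← hd]; exact hm
    rw [this]
    ring
  refine ⟨monic_of_natDegree_le_of_coeff_eq_one k h1 h2, ?_⟩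
  apply le_antisymm h1
  apply Polynomial.le_natDegree_of_ne_zero
  rw [h2]
  exact one_ne_zero

lemma monic_Sop (k : ℕ) (W : ℝ[X]) (hm : W.Monic) (hd : W.natDegree = k) :
    (Sop k W).Monic ∧ (Sop k W).natDegree = k := by
  have h1 : (Sop k W).natDegree ≤ k := by
    rw [Polynomial.natDegree_le_iff_coeff_eq_zero]
    intro s hs
    rw [coeff_Sop _ _ hd.le, Polynomial.coeff_eq_zero_of_natDegree_lt (by omega)]
    simp
  have h2 : (Sop k W).coeff k = 1 := by
    rw [coeff_Sop _ _ hd.le]
    have : W.coeff k = 1 := by rw [← hd]; exact hm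
    rw [this]
    simp
  refine ⟨monic_of_natDegree_le_of_coeff_eq_one k h1 h2, ?_⟩
  apply le_antisymm h1
  apply Polynomial.le_natDegree_of_ne_zero
  rw [h2]
  exact one_ne_zero

/-- The polynomial with the given roots. -/
noncomputable def rootPoly {k : ℕ} (w : Fin k → ℝ) : ℝ[X] := ∏ i, (X - C (w i))

lemma rootPoly_monic {k : ℕ} (w : Fin k → ℝ) : (rootPoly w).Monic := by
  unfold rootPoly
  exact monic_prod_of_monic _ _ fun i _ => monic_X_sub_C _

lemma rootPoly_natDegree {k : ℕ} (w : Fin k → ℝ) : (rootPoly w).natDegree = k := by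
  unfold rootPoly
  rw [natDegree_prod_of_monic _ _ fun i _ => monic_X_sub_C _]
  simp

lemma rootPoly_eval {k : ℕ} (w : Fin k → ℝ) (μ : ℝ) : (rootPoly w).eval μ = ∏ i, (μ - w i) := by
  unfold rootPoly
  rw [eval_prod]
  simp

lemma rootPoly_derivative_eval {k : ℕ} (w : Fin k → ℝ) (μ : ℝ) :
    (derivative (rootPoly w)).eval μ = ∑ i, ∏ j ∈ univ.erase i, (μ - w j) := by
  classical
  unfold rootPoly
  rw [derivative_prod_finset, eval_finsetSum]
  apply Finset.sum_congr rfl
  intro i _
  rw [eval_mul, eval_prod]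
  simp

lemma rootPoly_derivative_eval_root {k : ℕ} (w : Fin k → ℝ) (i : Fin k) :
    (derivative (rootPoly w)).eval (w i) = ∏ j ∈ univ.erase i, (w i - w j) := by
  classical
  rw [rootPoly_derivative_eval]
  rw [Finset.sum_eq_single i]
  · intro l _ hl
    apply Finset.prod_eq_zero (i := i)
    · simp [hl.symm]
    · simp
  · intro h
    exact absurd (Finset.mem_univ _) h

/-- `β` is the nonzero spectrum of a star. -/
def StarReal {k : ℕ} (β : Fin k → ℝ) : Prop :=
  ∃ w : Fin k → ℝ, (∀ i, 0 ≤ w i) ∧ ∀ j, EigR (starW w) (β j)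

lemma StarReal.smul {k : ℕ} {β : Fin k → ℝ} (h : StarReal β) {s : ℝ} (hs : 0 ≤ s) :
    StarReal (fun j => s * β j) := by
  obtain ⟨w, hw, hβ⟩ := h
  refine ⟨fun i => s * w i, fun i => mul_nonneg hs (hw i), fun j => ?_⟩
  have h := (hβ j).smul s
  have he : (fun i j => s * starW w i j) = starW (fun i => s * w i) := by
    funext i j
    rcases i with a | b <;> rcases j with a' | b' <;> simp [starW]
  rwa [he] at h

lemma starReal_of_rootPoly {k : ℕ} (β w : Fin k → ℝ) (hw : ∀ i, 0 < w i)
    (hinj : Function.Injective w) (h : Top k (rootPoly w) = rootPoly β) : StarReal β := by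
  classical
  refine ⟨w, fun i => (hw i).le, fun j => ?_⟩
  set μ := β j with hμ
  have h0 : (rootPoly β).eval μ = 0 := by
    rw [rootPoly_eval]
    apply Finset.prod_eq_zero (i := j) (Finset.mem_univ _)
    simp [hμ]
  have h1 : ((k : ℝ) + 1) * (rootPoly w).eval μ = μ * (derivative (rootPoly w)).eval μ := by
    rw [← h, Top, eval_sub, eval_mul, eval_mul, eval_C, eval_X] at h0
    linarith
  have hne : ∀ i, μ - w i ≠ 0 := by
    intro i hi
    have hi' : μ = w i := by linarith
    rw [hi', rootPoly_derivative_eval_root, rootPoly_eval] at h1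
    rw [Finset.prod_eq_zero (i := i) (Finset.mem_univ _) (by simp), mul_zero] at h1
    have h2 := mul_eq_zero.mp h1.symm
    rcases h2 with h2 | h2
    · exact (hw i).ne' h2
    · rw [Finset.prod_eq_zero_iff] at h2
      obtain ⟨l, hl, hl0⟩ := h2
      have : w i = w l := by linarith
      have := hinj this
      rw [this] at hl
      simp at hl
  apply star_eig w μ hne
  have hWne : (rootPoly w).eval μ ≠ 0 := by
    rw [rootPoly_eval, Finset.prod_ne_zero_iff]
    intro i _
    exact hne i
  have h3 : (derivative (rootPoly w)).eval μ = (rootPoly w).eval μ * ∑ i, 1 / (μ - w i) := by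
    rw [rootPoly_derivative_eval, rootPoly_eval, Finset.mul_sum]
    apply Finset.sum_congr rfl
    intro i _
    rw [← Finset.mul_prod_erase univ (fun j => μ - w j) (Finset.mem_univ i)]
    have := hne i
    field_simp
  rw [h3] at h1
  have h4 : (k : ℝ) + 1 = μ * ∑ i, 1 / (μ - w i) := by
    have : (rootPoly w).eval μ * ((k : ℝ) + 1) = (rootPoly w).eval μ * (μ * ∑ i, 1 / (μ - w i)) := by
      linarith
    exact mul_left_cancel₀ hWne this
  have h5 : ∀ i, w i / (μ - w i) = μ * (1 / (μ - w i)) - 1 := by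
    intro i
    have := hne i
    field_simp
    ring
  simp_rw [h5]
  rw [Finset.sum_sub_distrib, ← Finset.mul_sum, ← h4]
  simp

lemma prod_sign {k : ℕ} (s : Finset (Fin k)) (f : Fin k → ℝ) (P : Fin k → Prop) [DecidablePred P]
    (h : ∀ j ∈ s, if P j then 0 < f j else f j < 0) :
    0 < (-1) ^ (s.filter (fun j => ¬ P j)).card * ∏ j ∈ s, f j := by
  have h1 : (-1 : ℝ) ^ (s.filter (fun j => ¬ P j)).card * ∏ j ∈ s, f j
      = ∏ j ∈ s, ((if P j then 1 else -1) * f j) := by
    rw [Finset.prod_mul_distrib]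
    congr 1
    rw [Finset.prod_ite]
    simp
  rw [h1]
  apply Finset.prod_pos
  intro j hj
  have := h j hj
  split_ifs at this ⊢
  · simpa using this
  · linarith

lemma card_filter_ge {k : ℕ} (i : ℕ) (hi : i ≤ k) :
    ((univ : Finset (Fin k)).filter (fun j => ¬ j.val < i)).card = k - i := by
  have h1 : ((univ : Finset (Fin k)).filter (fun j => j.val < i)).card = i := by
    rw [Fin.card_filter_val_lt]
    omega
  have h2 := Finset.card_filter_add_card_filter_not (s := (univ : Finset (Fin k)))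
    (fun j => j.val < i)
  rw [h1] at h2
  simp at h2
  simp only [not_lt]
  omega

end Pool.Agent.Q170.Susp
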